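import Mathlib

set_option autoImplicit false

/-!
# Words used in the proof of MP_0873fe_al

`LC Γ k` is the `(k+1)`-st term of the lower central series of the subgroup `Γ`, as a subgroup of the
ambient group.  `cC x y l` is a left-normed commutator, for the group commutator as well as for
the Lie bracket of a ring.
-/

namespace Pool.Agent.Helper52.Inv

open scoped commutatorElement

/-- `LC Γ k` is the `(k+1)`-st term of the lower central series of `Γ`, inside the ambient group. -/
def LC {G : Type*} [Group G] (Γ : Subgroup G) : ℕ → Subgroup G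
  | 0 => Γ
  | k + 1 => ⁅LC Γ k, Γ⁆

section
variable {M : Type*} [Bracket M M]

/-- `[x,[x,[x,y]]]` -/
def cA (x y : M) : M := ⁅x, ⁅x, ⁅x, y⁆⁆⁆

/-- `[x,[x,y]]` or `[y,[x,y]]` -/
def cB (x y : M) (b : Bool) : M := if b then ⁅y, ⁅x, y⁆⁆ else ⁅x, ⁅x, y⁆⁆

/-- `[...[[A,B_{b_m}],B_{b_{m-1}}],...,B_{b_1}]` for the list `[b_1,...,b_m]`. -/
def cC (x y : M) : List Bool → M
  | [] => cA x y
  | b :: l => ⁅cC x y l, cB x y b⁆

end

/-- The product of the powers `cC x y l ^ α l` over a list of lists. -/
def wd {G : Type*} [Group G] (x y : G) (S : List (List Bool)) (α : List Bool → ℤ) : G :=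
  (S.map fun l => cC x y l ^ α l).prod

/-- The corresponding Lie polynomial. -/
def ws {R : Type*} [Ring R] (x y : R) (S : List (List Bool)) (α : List Bool → ℤ) : R :=
  (S.map fun l => α l • cC x y l).sum

/-- The traceless part of a 2x2 matrix; `r` is a half (`2 * r = 1` in `A`). -/
def Th {A : Type*} [CommRing A] (r : ℕ) (g : Matrix (Fin 2) (Fin 2) A) :
    Matrix (Fin 2) (Fin 2) A :=
  g - (r • g.trace) • (1 : Matrix (Fin 2) (Fin 2) A)

/-- There is a finite two-generated `p`-group which is not a section of any finite `p`-group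
having an automorphism of order at most two with abelian centralizer. -/
def FiniteStatement (p : ℕ) : Prop :=
  ∃ N₀ : Subgroup (FreeGroup (Fin 2)), N₀.Normal ∧ (∃ k, N₀.index = p ^ k) ∧
    ∀ (P : Type) [Group P] [Finite P], IsPGroup p P → ∀ φ : P ≃* P, (∀ x, φ (φ x) = x) →
      (∀ a b : P, φ a = a → φ b = b → a * b = b * a) →
      ∀ θ : FreeGroup (Fin 2) →* P, ¬ θ.ker ≤ N₀

end Pool.Agent.Helper52.Inv
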