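import Pool.Agent.Helper52.Inv.FinS
set_option autoImplicit false
open scoped commutatorElement

namespace Pool.Agent.Helper52.Inv
open ZG TP GrHom Hat

/-- powers of the ideal `(t, p)` -/
theorem tp_pow_le {B : Type*} [CommRing B] {n : ℕ} (p N : ℕ) :
    (tI + Ideal.span {(p : TP B n)}) ^ N ≤ Ideal.span {(p : TP B n) ^ (N - n)} := by
  rw [add_pow]
  refine Finset.sum_induction _ (fun J : Ideal (TP B n) => J ≤ Ideal.span {(p : TP B n) ^ (N - n)})
    (fun a b ha hb => sup_le ha hb) bot_le ?_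
  intro i _
  refine Ideal.mul_le_left.trans ?_
  rcases Nat.lt_or_ge n i with h | h
  · have : (tI : Ideal (TP B n)) ^ i = ⊥ := by
      rw [← Nat.add_sub_cancel' (Nat.succ_le_of_lt h), pow_add]
      rw [Nat.succ_eq_add_one, tI_pow, Ideal.bot_mul]
    rw [this, Ideal.bot_mul]
    exact bot_le
  · refine Ideal.mul_le_right.trans ?_
    rw [Ideal.span_singleton_pow, Ideal.span_singleton_le_span_singleton]
    exact pow_dvd_pow _ (by omega)

/-- the `p^m`-th power of an element of the congruence subgroup -/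
theorem pow_mem_Cg {B : Type*} [CommRing B] {n : ℕ} (p m : ℕ)
    {g : Matrix.SpecialLinearGroup (Fin 2) (TP B n)} (hg : g ∈ Cg tI) :
    g ^ (p ^ m) ∈ Cg (Ideal.span {(p : TP B n) ^ (m + 1 - n)}) := by
  rw [mem_Cg] at hg ⊢
  have h1 : EM (tI + Ideal.span {(p : TP B n)}) (g.1 - 1) := hg.mono le_sup_left
  have hp : (p : TP B n) ∈ tI + Ideal.span {(p : TP B n)} :=
    Ideal.mem_sup_right (Ideal.mem_span_singleton_self _)
  exact (EM.pow_prime_pow hp h1 m).mono (tp_pow_le p (m + 1))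

theorem Cg_pow_mono {B : Type*} [CommRing B] {n : ℕ} (p : ℕ) {a b : ℕ} (h : a ≤ b) :
    Cg (Ideal.span {(p : TP B n) ^ b}) ≤ Cg (Ideal.span {(p : TP B n) ^ a}) := by
  apply Cg_mono
  rw [Ideal.span_singleton_le_span_singleton]
  exact pow_dvd_pow _ h

namespace Inl
variable {G : Type*} [Group G] (I : Inl G)

/-- class of the inverted part of an element with odd class -/
theorem hm_dp {j : ℕ} {g : G} (hg : g ∈ (lcN G).Γ j) (ho : (lcN G).hm j g ∈ I.zg.O) :
    (lcN G).hm j (I.dp g) = (lcN G).hm j g := by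
  rw [I.mem_O, I.st_hm hg] at ho
  have h1 := I.h_mem j hg
  have h2 : ∀ (k : ℕ) {x : G}, x ∈ (lcN G).Γ j → (lcN G).hm j (x ^ k) = k • (lcN G).hm j x := by
    intro k x hx
    rw [NSer.hm, (lcN G).cl_pow hx, map_nsmul]; rfl
  rw [dp, h2 _ h1, (lcN G).hm_mul (((lcN G).Γ j).inv_mem (I.φ_mem j hg)) hg,
    (lcN G).hm_inv (I.φ_mem j hg), ho, neg_neg, ← two_smul ℕ, ← mul_smul,
    show (I.r + 1) * 2 = (2 * I.r + 1) + 1 by ring, add_smul, I.tot_exp, zero_add, one_smul]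

end Inl

namespace Dat

variable {p e n : ℕ} {G : Type*} [Group G] (X : Dat p e n G)

theorem approx (hp : p.Prime) (h2 : 2 < p) {P : Type*} [Group P] (π : G →* P) (e0 : ℕ)
    (hexp : ∀ x : P, x ^ (p ^ e0) = 1) (hnil : LC (⊤ : Subgroup G) n = ⊥) (k : ℕ) (hk : k ≤ n)
    (δ : G) (hδ : δ ∈ (lcN G).Γ (n + 1 - k)) (hinv : X.I.φ δ = δ⁻¹) (m : ℕ)
    (hm1 : e0 + k * n ≤ m) (hm2 : m ≤ e)
    (hcong : X.f δ ∈ Cg (Ideal.span {(p : TP (BR (ZMod (p ^ e))) n) ^ m})) : π δ = 1 := by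
  induction k generalizing δ m with
  | zero =>
    have h : δ ∈ LC (⊤ : Subgroup G) n := hδ
    rw [hnil, Subgroup.mem_bot] at h
    rw [h, map_one]
  | succ k ih =>
    obtain ⟨j, hj⟩ : ∃ j, j = n + 1 - (k + 1) := ⟨_, rfl⟩
    rw [← hj] at hδ
    have hjn : j ≤ n := by omega
    obtain ⟨x, ⟨g, hg, hgx⟩, hx⟩ := X.fin_step hp h2 hm2 hjn hδ hinv (mem_Cg.mp hcong)
    have hgO : (lcN G).hm j g ∈ X.I.zg.O := by rw [hgx]; exact x.2
    have hpow : ∀ (k : ℕ) {y : G}, y ∈ (lcN G).Γ j → (lcN G).hm j (y ^ k) = k • (lcN G).hm j y := by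
      intro k y hy
      rw [NSer.hm, (lcN G).cl_pow hy, map_nsmul]; rfl
    set ν : G := (X.I.dp g) ^ ((X.I.r + 1) * p ^ m) with hν
    have hdpΓ := X.I.dp_mem j hg
    have hνΓ : ν ∈ (lcN G).Γ j := ((lcN G).Γ j).pow_mem hdpΓ _
    have hνcl : (lcN G).hm j ν = (X.I.r + 1) • (lcN G).hm j δ := by
      rw [hν, hpow _ hdpΓ, X.I.hm_dp hg hgO, hgx, hx, mul_smul]
    have hνφ : X.I.φ ν = ν⁻¹ := by rw [hν, map_pow, X.I.φ_dp, inv_pow]
    set δ' : G := ν⁻¹ * δ * ν⁻¹ with hδ'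
    have hδ'Γ : δ' ∈ (lcN G).Γ j :=
      ((lcN G).Γ j).mul_mem (((lcN G).Γ j).mul_mem (((lcN G).Γ j).inv_mem hνΓ) hδ)
        (((lcN G).Γ j).inv_mem hνΓ)
    have hδ'cl : (lcN G).hm j δ' = 0 := by
      rw [hδ', (lcN G).hm_mul (((lcN G).Γ j).mul_mem (((lcN G).Γ j).inv_mem hνΓ) hδ)
        (((lcN G).Γ j).inv_mem hνΓ), (lcN G).hm_mul (((lcN G).Γ j).inv_mem hνΓ) hδ,
        (lcN G).hm_inv hνΓ, hνcl]
      have h1 := X.I.tot_exp ((lcN G).hm j δ)
      have h3 : -((X.I.r + 1) • (lcN G).hm j δ) + (lcN G).hm j δ + -((X.I.r + 1) • (lcN G).hm j δ) =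
          -((2 * X.I.r + 1) • (lcN G).hm j δ) := by
        simp only [add_smul, mul_smul, one_smul, two_smul]
        abel
      rw [h3, h1, neg_zero]
    have hδ'Γ' : δ' ∈ (lcN G).Γ (j + 1) := by
      rw [← (lcN G).cl_eq_zero_iff hδ'Γ]
      apply (lcN G).inc_injective j
      rw [map_zero]
      exact hδ'cl
    have hδ'φ : X.I.φ δ' = δ'⁻¹ := by
      rw [hδ', map_mul, map_mul, map_inv, hνφ, hinv]
      group
    have hνm : X.f ν ∈ Cg (Ideal.span {(p : TP (BR (ZMod (p ^ e))) n) ^ (m - n)}) := by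
      rw [hν, pow_mul, map_pow]
      exact Cg_pow_mono p (by omega) (pow_mem_Cg p m (X.hf _))
    have hδ'm : X.f δ' ∈ Cg (Ideal.span {(p : TP (BR (ZMod (p ^ e))) n) ^ (m - n)}) := by
      rw [hδ', map_mul, map_mul, map_inv]
      exact Subgroup.mul_mem _ (Subgroup.mul_mem _ (Subgroup.inv_mem _ hνm)
        (Cg_pow_mono p (by omega) hcong)) (Subgroup.inv_mem _ hνm)
    have hmn : e0 + k * n ≤ m - n := by
      have : (k + 1) * n = k * n + n := by ring
      omega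
    have hres := ih (by omega) δ' (by rwa [show n + 1 - k = j + 1 by omega]) hδ'φ (m - n) hmn
      (by omega) hδ'm
    have hπν : π ν = 1 := by
      have he : e0 ≤ m := by omega
      have hy : ∀ y : P, y ^ (p ^ m) = 1 := by
        intro y
        rw [← Nat.add_sub_cancel' he, pow_add p, pow_mul, hexp, one_pow]
      rw [hν, map_pow, pow_mul, hy]
    rw [hδ', map_mul, map_mul, map_inv, hπν, inv_one, one_mul, mul_one] at hres
    exact hres

theorem ker_central (hp : p.Prime) (h2 : 2 < p) {P : Type*} [Group P] (π : G →* P) (e0 : ℕ)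
    (hexp : ∀ x : P, x ^ (p ^ e0) = 1) (hnil : LC (⊤ : Subgroup G) n = ⊥) (he : e0 + n * n ≤ e)
    (hph : ∀ g, X.f (X.I.φ g) = ph (X.f g)) (hinj : ∀ g, π g = 1 → X.f g = 1 → g = 1)
    (g : G) (hg : X.f g = 1) (x : G) : g * x = x * g := by
  have key : ∀ g, X.f g = 1 → X.I.φ g = g := by
    intro g hg
    have h1 : X.f ((X.I.φ g)⁻¹ * g) = 1 := by
      rw [map_mul, map_inv, hph, hg, map_one, inv_one, one_mul]
    have h3 := X.approx hp h2 π e0 hexp hnil n le_rfl ((X.I.φ g)⁻¹ * g)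
      (by rw [Nat.add_sub_cancel_left]; exact (lcN G).mem_one _) (X.I.φh g) e he le_rfl
      (by rw [h1]; exact Subgroup.one_mem _)
    have h4 := hinj _ h3 h1
    rwa [inv_mul_eq_one] at h4
  have hcen : Subgroup.closure (Set.range X.c ∪ Set.range X.d) ≤ Subgroup.centralizer {g} := by
    rw [Subgroup.closure_le]
    rintro _ (⟨i, rfl⟩ | ⟨i, rfl⟩)
    · change X.c i ∈ Subgroup.centralizer {g}
      rw [Subgroup.mem_centralizer_singleton_iff]
      exact X.I.ab _ _ (X.hc i) (key g hg)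
    · change X.d i ∈ Subgroup.centralizer {g}
      have h1 : X.f ((X.d i)⁻¹ * g * X.d i) = 1 := by
        rw [map_mul, map_mul, hg, mul_one, map_inv, inv_mul_cancel]
      have h3 := key _ h1
      rw [map_mul, map_mul, map_inv, X.hd, inv_inv, key g hg] at h3
      have h4 : (X.d i * X.d i) ∈ Subgroup.centralizer {g} := by
        rw [Subgroup.mem_centralizer_singleton_iff]
        calc X.d i * X.d i * g = X.d i * (X.d i * g * (X.d i)⁻¹) * X.d i := by group
          _ = X.d i * ((X.d i)⁻¹ * g * X.d i) * X.d i := by rw [h3]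
          _ = g * (X.d i * X.d i) := by group
      rw [X.I.eq_pow_sq (X.d i)]
      exact Subgroup.pow_mem _ h4 _
  have hx : x ∈ Subgroup.centralizer {g} := by
    apply hcen
    rw [X.hgen]; trivial
  rw [Subgroup.mem_centralizer_singleton_iff] at hx
  exact hx.symm

end Dat

end Pool.Agent.Helper52.Inv
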