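import Pool.Agent.Helper52.Inv.LcN
set_option autoImplicit false
open scoped commutatorElement
open Matrix

namespace Pool.Agent.Helper52.Inv

variable {A : Type*} [CommRing A]

/-- all entries of the matrix lie in the ideal -/
def EM (J : Ideal A) (M : Matrix (Fin 2) (Fin 2) A) : Prop := ∀ i j, M i j ∈ J

theorem EM_zero (J : Ideal A) : EM J 0 := fun _ _ => J.zero_mem

theorem EM.add {J : Ideal A} {M N : Matrix (Fin 2) (Fin 2) A} (h1 : EM J M) (h2 : EM J N) :
    EM J (M + N) := fun i j => J.add_mem (h1 i j) (h2 i j)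

theorem EM.neg {J : Ideal A} {M : Matrix (Fin 2) (Fin 2) A} (h1 : EM J M) :
    EM J (-M) := fun i j => J.neg_mem (h1 i j)

theorem EM.sub {J : Ideal A} {M N : Matrix (Fin 2) (Fin 2) A} (h1 : EM J M) (h2 : EM J N) :
    EM J (M - N) := fun i j => J.sub_mem (h1 i j) (h2 i j)

theorem EM.mul {J K : Ideal A} {M N : Matrix (Fin 2) (Fin 2) A} (h1 : EM J M) (h2 : EM K N) :
    EM (J * K) (M * N) := fun i j => by
  rw [Matrix.mul_apply]
  exact Ideal.sum_mem _ fun k _ => Ideal.mul_mem_mul (h1 i k) (h2 k j)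

theorem EM.mul_right {J : Ideal A} {M : Matrix (Fin 2) (Fin 2) A} (h1 : EM J M)
    (N : Matrix (Fin 2) (Fin 2) A) : EM J (M * N) := fun i j => by
  rw [Matrix.mul_apply]
  exact Ideal.sum_mem _ fun k _ => J.mul_mem_right _ (h1 i k)

theorem EM.mul_left {J : Ideal A} {M : Matrix (Fin 2) (Fin 2) A} (h1 : EM J M)
    (N : Matrix (Fin 2) (Fin 2) A) : EM J (N * M) := fun i j => by
  rw [Matrix.mul_apply]
  exact Ideal.sum_mem _ fun k _ => J.mul_mem_left _ (h1 k j)

theorem EM.mono {J K : Ideal A} (h : J ≤ K) {M : Matrix (Fin 2) (Fin 2) A} (h1 : EM J M) :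
    EM K M := fun i j => h (h1 i j)

theorem EM.sum {ι : Type*} {J : Ideal A} (s : Finset ι) (f : ι → Matrix (Fin 2) (Fin 2) A)
    (h : ∀ i ∈ s, EM J (f i)) : EM J (∑ i ∈ s, f i) := fun i j => by
  rw [Matrix.sum_apply]
  exact Ideal.sum_mem _ fun k hk => h k hk i j

theorem EM.pow_sub {J : Ideal A} {M : Matrix (Fin 2) (Fin 2) A} (h : EM J (M - 1)) (n : ℕ) :
    EM J (M ^ n - 1) := by
  induction n with
  | zero => simpa using EM_zero J
  | succ n ih =>
    have : M ^ (n + 1) - 1 = M ^ n * (M - 1) + (M ^ n - 1) := by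
      rw [pow_succ]; noncomm_ring
    rw [this]
    exact (h.mul_left _).add ih

/-- raising to the power `p` -/
theorem EM.pow_prime {I : Ideal A} {M : Matrix (Fin 2) (Fin 2) A} {p k : ℕ} (hp : (p : A) ∈ I)
    (h : EM (I ^ (k + 1)) (M - 1)) : EM (I ^ (k + 2)) (M ^ p - 1) := by
  rw [← mul_geom_sum M p, show k + 2 = (k + 1) + 1 by ring, pow_succ]
  refine h.mul ?_
  have : ∑ i ∈ Finset.range p, M ^ i = (∑ i ∈ Finset.range p, (M ^ i - 1)) +
      (p : Matrix (Fin 2) (Fin 2) A) := by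
    rw [Finset.sum_sub_distrib]; simp
  rw [this]
  refine (EM.sum _ _ fun i _ => ?_).add ?_
  · exact (h.mono (Ideal.pow_le_self (by omega))).pow_sub i
  · intro i j
    have : (p : Matrix (Fin 2) (Fin 2) A) = (p : A) • 1 := by
      rw [Matrix.smul_one_eq_diagonal]; rfl
    rw [this, Matrix.smul_apply, smul_eq_mul]
    exact I.mul_mem_right _ hp

theorem EM.pow_prime_pow {I : Ideal A} {M : Matrix (Fin 2) (Fin 2) A} {p : ℕ} (hp : (p : A) ∈ I)
    (h : EM I (M - 1)) (n : ℕ) : EM (I ^ (n + 1)) (M ^ (p ^ n) - 1) := by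
  induction n with
  | zero => simpa using h
  | succ n ih =>
    rw [pow_succ p, pow_mul]
    exact EM.pow_prime hp ih

/-- congruence subgroups -/
def Cg (J : Ideal A) : Subgroup (Matrix.SpecialLinearGroup (Fin 2) A) :=
  (Matrix.SpecialLinearGroup.map (Ideal.Quotient.mk J)).ker

theorem mem_Cg {J : Ideal A} {g : Matrix.SpecialLinearGroup (Fin 2) A} :
    g ∈ Cg J ↔ EM J (g.1 - 1) := by
  rw [Cg, MonoidHom.mem_ker]
  constructor
  · intro h i j
    have h1 := congrArg (fun x : Matrix.SpecialLinearGroup (Fin 2) (A ⧸ J) => x.1 i j) h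
    simp only [Matrix.SpecialLinearGroup.map_apply_coe, RingHom.mapMatrix_apply, Matrix.map_apply,
      Matrix.SpecialLinearGroup.coe_one] at h1
    rw [Matrix.sub_apply, ← Ideal.Quotient.eq_zero_iff_mem, map_sub, h1, sub_eq_zero]
    rw [Matrix.one_apply, Matrix.one_apply]
    split_ifs <;> simp
  · intro h
    ext i j
    have h1 := h i j
    rw [Matrix.sub_apply, ← Ideal.Quotient.eq_zero_iff_mem, map_sub, sub_eq_zero] at h1
    simp only [Matrix.SpecialLinearGroup.map_apply_coe, RingHom.mapMatrix_apply, Matrix.map_apply,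
      Matrix.SpecialLinearGroup.coe_one]
    rw [h1, Matrix.one_apply, Matrix.one_apply]
    split_ifs <;> simp

theorem Cg_mono {J K : Ideal A} (h : J ≤ K) : Cg J ≤ Cg K := fun g hg => by
  rw [mem_Cg] at hg ⊢; exact hg.mono h

theorem Cg_bot : Cg (⊥ : Ideal A) = ⊥ := by
  rw [eq_bot_iff]
  intro g hg
  rw [mem_Cg] at hg
  rw [Subgroup.mem_bot]
  ext i j
  have := hg i j
  rw [Ideal.mem_bot, Matrix.sub_apply, sub_eq_zero] at this
  rw [this]; rfl

theorem comm_sub_one (g h : Matrix.SpecialLinearGroup (Fin 2) A) :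
    (⁅g, h⁆).1 - 1 = ((g.1 - 1) * (h.1 - 1) - (h.1 - 1) * (g.1 - 1)) * (g⁻¹ * h⁻¹).1 := by
  have h1 : (h * g).1 * (g⁻¹ * h⁻¹).1 = 1 := by
    rw [← Matrix.SpecialLinearGroup.coe_mul]
    rw [show h * g * (g⁻¹ * h⁻¹) = 1 by group]
    rfl
  have h2 : (g * h).1 * (g⁻¹ * h⁻¹).1 = (⁅g, h⁆).1 := by
    rw [← Matrix.SpecialLinearGroup.coe_mul]
    rw [show g * h * (g⁻¹ * h⁻¹) = ⁅g, h⁆ by rw [commutatorElement_def]; group]
  have h3 : (g.1 - 1) * (h.1 - 1) - (h.1 - 1) * (g.1 - 1) = (g * h).1 - (h * g).1 := by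
    rw [Matrix.SpecialLinearGroup.coe_mul, Matrix.SpecialLinearGroup.coe_mul]; noncomm_ring
  rw [h3, sub_mul, h1, h2]

theorem comm_Cg {J K : Ideal A} {g h : Matrix.SpecialLinearGroup (Fin 2) A} (hg : g ∈ Cg J)
    (hh : h ∈ Cg K) : ⁅g, h⁆ ∈ Cg (J * K) := by
  rw [mem_Cg] at *
  rw [comm_sub_one]
  refine EM.mul_right ?_ _
  refine (hg.mul hh).sub ?_
  rw [mul_comm J K]
  exact hh.mul hg

theorem LC_Cg {I : Ideal A} {S : Subgroup (Matrix.SpecialLinearGroup (Fin 2) A)} (h : S ≤ Cg I) (n : ℕ) :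
    LC S n ≤ Cg (I ^ (n + 1)) := by
  induction n with
  | zero => simpa [LC] using h
  | succ n ih =>
    rw [LC, Subgroup.commutator_le]
    intro a ha b hb
    rw [pow_succ]
    exact comm_Cg (ih ha) (h hb)

end Pool.Agent.Helper52.Inv
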