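import Mathlib
set_option autoImplicit false

namespace Pool.Agent.Helper52.Inv
open Polynomial

/-- the truncated polynomial ring `B[t]/(t^(c+1))` -/
def TP (B : Type*) [CommRing B] (c : ℕ) : Type _ := B[X] ⧸ Ideal.span {(X : B[X]) ^ (c + 1)}

noncomputable instance (B : Type*) [CommRing B] (c : ℕ) : CommRing (TP B c) :=
  inferInstanceAs (CommRing (B[X] ⧸ Ideal.span {(X : B[X]) ^ (c + 1)}))

namespace TP

variable {B : Type*} [CommRing B] {c : ℕ}

/-- the projection -/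
noncomputable def mk : B[X] →+* TP B c := Ideal.Quotient.mk (Ideal.span {(X : B[X]) ^ (c + 1)})

theorem mk_surj : Function.Surjective (mk : B[X] →+* TP B c) := Ideal.Quotient.mk_surjective

theorem mk_eq_zero {f : B[X]} : (mk f : TP B c) = 0 ↔ (X : B[X]) ^ (c + 1) ∣ f := by
  rw [← Ideal.mem_span_singleton]
  exact Ideal.Quotient.eq_zero_iff_mem

/-- a representative -/
noncomputable def rep (a : TP B c) : B[X] := (mk_surj a).choose

theorem mk_rep (a : TP B c) : mk (rep a) = a := (mk_surj a).choose_spec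

/-- the homogeneous component of degree `n`, inside the ring -/
noncomputable def H (n : ℕ) (a : TP B c) : TP B c := mk (monomial n ((rep a).coeff n))

theorem mk_monomial_congr {n : ℕ} {f g : B[X]} (h : (mk f : TP B c) = mk g) :
    (mk (monomial n (f.coeff n)) : TP B c) = mk (monomial n (g.coeff n)) := by
  rw [← sub_eq_zero, ← map_sub, mk_eq_zero] at h ⊢
  obtain ⟨q, hq⟩ := h
  rw [← map_sub, ← coeff_sub, hq]
  rcases Nat.lt_or_ge n (c + 1) with hn | hn
  · rw [coeff_X_pow_mul', if_neg (by omega), map_zero]; exact dvd_zero _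
  · rw [← C_mul_X_pow_eq_monomial]
    exact Dvd.dvd.mul_left (pow_dvd_pow X hn) _

theorem H_mk (n : ℕ) (f : B[X]) : H n (mk f : TP B c) = mk (monomial n (f.coeff n)) :=
  mk_monomial_congr (mk_rep _)

theorem H_add (n : ℕ) (a b : TP B c) : H n (a + b) = H n a + H n b := by
  obtain ⟨f, rfl⟩ := mk_surj a
  obtain ⟨g, rfl⟩ := mk_surj b
  rw [← map_add, H_mk, H_mk, H_mk, coeff_add, map_add, map_add]

/-- `H n` as an additive map -/
noncomputable def Hh (n : ℕ) : TP B c →+ TP B c := AddMonoidHom.mk' (H n) (H_add n)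

theorem H_zero (n : ℕ) : H n (0 : TP B c) = 0 := map_zero (Hh n)
theorem H_neg (n : ℕ) (a : TP B c) : H n (-a) = - H n a := map_neg (Hh n) a
theorem H_sub (n : ℕ) (a b : TP B c) : H n (a - b) = H n a - H n b := map_sub (Hh n) a b

/-- the parameter -/
noncomputable def t : TP B c := mk X

/-- the ideal of the parameter -/
noncomputable def tI : Ideal (TP B c) := Ideal.span {t}

theorem mem_tI {n : ℕ} {a : TP B c} : a ∈ (tI : Ideal (TP B c)) ^ n ↔ ∃ f, a = mk (X ^ n * f) := by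
  rw [tI, Ideal.span_singleton_pow, Ideal.mem_span_singleton']
  constructor
  · rintro ⟨b, rfl⟩
    obtain ⟨f, rfl⟩ := mk_surj b
    exact ⟨f, by rw [t, ← map_pow, ← map_mul, mul_comm]⟩
  · rintro ⟨f, rfl⟩
    exact ⟨mk f, by rw [t, ← map_pow, ← map_mul, mul_comm]⟩

theorem t_pow_eq_zero : (t : TP B c) ^ (c + 1) = 0 := by
  rw [t, ← map_pow, mk_eq_zero]

theorem tI_pow : (tI : Ideal (TP B c)) ^ (c + 1) = ⊥ := by
  rw [tI, Ideal.span_singleton_pow, t_pow_eq_zero, Ideal.span_singleton_eq_bot]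

theorem t_mem (b : TP B c) : t * b ∈ (tI : Ideal (TP B c)) :=
  Ideal.mul_mem_right _ _ (Ideal.mem_span_singleton_self _)

theorem H_mul {i j : ℕ} {a b : TP B c} (ha : a ∈ (tI : Ideal (TP B c)) ^ i)
    (hb : b ∈ (tI : Ideal (TP B c)) ^ j) : H (i + j) (a * b) = H i a * H j b := by
  obtain ⟨f, rfl⟩ := mem_tI.mp ha
  obtain ⟨g, rfl⟩ := mem_tI.mp hb
  rw [← map_mul, H_mk, H_mk, H_mk, ← map_mul, monomial_mul_monomial]
  have h1 : (X ^ i * f * (X ^ j * g)).coeff (i + j) = f.coeff 0 * g.coeff 0 := by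
    rw [show X ^ i * f * (X ^ j * g) = X ^ (i + j) * (f * g) by ring]
    rw [coeff_X_pow_mul', if_pos le_rfl, Nat.sub_self, mul_coeff_zero]
  have h2 : (X ^ i * f).coeff i = f.coeff 0 := by
    rw [coeff_X_pow_mul', if_pos le_rfl, Nat.sub_self]
  have h3 : (X ^ j * g).coeff j = g.coeff 0 := by
    rw [coeff_X_pow_mul', if_pos le_rfl, Nat.sub_self]
  rw [h1, h2, h3]

theorem H_of_mem {n m : ℕ} (h : n < m) {a : TP B c} (ha : a ∈ (tI : Ideal (TP B c)) ^ m) :
    H n a = 0 := by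
  obtain ⟨f, rfl⟩ := mem_tI.mp ha
  rw [H_mk, coeff_X_pow_mul', if_neg (by omega), map_zero, map_zero]

/-- the coefficient -/
noncomputable def κ (n : ℕ) (a : TP B c) : B := (rep a).coeff n

theorem κ_mk {n : ℕ} (hn : n ≤ c) (f : B[X]) : κ n (mk f : TP B c) = f.coeff n := by
  have h := mk_rep (mk f : TP B c)
  rw [← sub_eq_zero, ← map_sub, mk_eq_zero] at h
  obtain ⟨q, hq⟩ := h
  have := congrArg (fun g => coeff g n) hq
  simp only [coeff_sub, coeff_X_pow_mul'] at this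
  rw [if_neg (by omega)] at this
  exact sub_eq_zero.mp this

theorem κ_add {n : ℕ} (hn : n ≤ c) (a b : TP B c) : κ n (a + b) = κ n a + κ n b := by
  obtain ⟨f, rfl⟩ := mk_surj a
  obtain ⟨g, rfl⟩ := mk_surj b
  rw [← map_add, κ_mk hn, κ_mk hn, κ_mk hn, coeff_add]

/-- constants -/
noncomputable def ι : B →+* TP B c := mk.comp C

theorem κ_ι_mul {n : ℕ} (hn : n ≤ c) (b : B) (a : TP B c) : κ n (ι b * a) = b * κ n a := by
  obtain ⟨f, rfl⟩ := mk_surj a
  rw [ι, RingHom.comp_apply, ← map_mul, κ_mk hn, κ_mk hn, coeff_C_mul]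

theorem κ_t {n m : ℕ} (hn : n ≤ c) (b : B) : κ n (ι b * t ^ m : TP B c) = if m = n then b else 0 := by
  rw [ι, RingHom.comp_apply, t, ← map_pow, ← map_mul, κ_mk hn, coeff_C_mul_X_pow]
  simp only [eq_comm]

theorem H_t (m : ℕ) (b : B) : H m (ι b * t ^ m : TP B c) = ι b * t ^ m := by
  rw [ι, RingHom.comp_apply, t, ← map_pow, ← map_mul, H_mk, coeff_C_mul_X_pow, if_pos rfl,
    C_mul_X_pow_eq_monomial]

theorem κ_H {n : ℕ} (hn : n ≤ c) (a : TP B c) : κ n (H n a) = κ n a := by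
  obtain ⟨f, rfl⟩ := mk_surj a
  rw [H_mk, κ_mk hn, κ_mk hn, coeff_monomial, if_pos rfl]

theorem isUnit_one_add (b : TP B c) : IsUnit (1 + t * b) := by
  have : IsNilpotent (t * b) := ⟨c + 1, by rw [mul_pow, t_pow_eq_zero, zero_mul]⟩
  exact this.isUnit_one_add

end TP
end Pool.Agent.Helper52.Inv
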