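import Pool.Agent.Helper52.Inv.Odd
import Pool.Agent.Helper52.Inv.Cong
import Pool.Agent.Helper52.Inv.Trunc
set_option autoImplicit false
open scoped commutatorElement
open Matrix

namespace Pool.Agent.Helper52.Inv

namespace GrHom

open TP

variable {B : Type*} [CommRing B] {c : ℕ}

/-- homogeneous component of a matrix -/
noncomputable def HM (n : ℕ) (M : Matrix (Fin 2) (Fin 2) (TP B c)) :
    Matrix (Fin 2) (Fin 2) (TP B c) := M.map (H n)

theorem HM_apply (n : ℕ) (M : Matrix (Fin 2) (Fin 2) (TP B c)) (i j : Fin 2) :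
    HM n M i j = H n (M i j) := rfl

theorem HM_add (n : ℕ) (M N : Matrix (Fin 2) (Fin 2) (TP B c)) :
    HM n (M + N) = HM n M + HM n N := by
  ext i j; simp only [HM_apply, Matrix.add_apply, H_add]

theorem HM_sub (n : ℕ) (M N : Matrix (Fin 2) (Fin 2) (TP B c)) :
    HM n (M - N) = HM n M - HM n N := by
  ext i j; simp only [HM_apply, Matrix.sub_apply, H_sub]

theorem HM_mul {i j : ℕ} {M N : Matrix (Fin 2) (Fin 2) (TP B c)} (hM : EM (tI ^ i) M)
    (hN : EM (tI ^ j) N) : HM (i + j) (M * N) = HM i M * HM j N := by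
  ext a b
  rw [HM_apply, Matrix.mul_apply, Matrix.mul_apply, Fin.sum_univ_two, Fin.sum_univ_two, H_add,
    H_mul (hM a 0) (hN 0 b), H_mul (hM a 1) (hN 1 b)]
  rfl

theorem HM_of_mem {n m : ℕ} (h : n < m) {M : Matrix (Fin 2) (Fin 2) (TP B c)}
    (hM : EM (tI ^ m) M) : HM n M = 0 := by
  ext a b
  rw [HM_apply, H_of_mem h (hM a b)]; rfl

variable {G : Type*} [Group G] (f : G →* Matrix.SpecialLinearGroup (Fin 2) (TP B c))
  (hf : ∀ g, f g ∈ Cg tI)

include hf in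
theorem f_mem {n : ℕ} {g : G} (hg : g ∈ (lcN G).Γ n) : f g ∈ Cg (tI ^ n) := by
  rcases n with _ | n
  · rw [pow_zero, Ideal.one_eq_top, mem_Cg]
    intro i j; trivial
  · have h1 : (LC (⊤ : Subgroup G) n).map f = LC ((⊤ : Subgroup G).map f) n := LC_map f ⊤ n
    have h2 : (⊤ : Subgroup G).map f ≤ Cg tI := by
      rintro _ ⟨x, -, rfl⟩; exact hf x
    have h3 : f g ∈ (LC (⊤ : Subgroup G) n).map f := ⟨g, hg, rfl⟩
    rw [h1] at h3
    exact LC_Cg h2 n h3

/-- the components -/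
noncomputable def θ (n : ℕ) (g : G) : Matrix (Fin 2) (Fin 2) (TP B c) := HM n ((f g).1 - 1)

include hf in
theorem θ_add (n : ℕ) (g : G) (hg : g ∈ (lcN G).Γ n) (h : G) (hh : h ∈ (lcN G).Γ n) :
    θ f n (g * h) = θ f n g + θ f n h := by
  have e : (f (g * h)).1 - 1 = ((f g).1 - 1) * ((f h).1 - 1) + (((f g).1 - 1) + ((f h).1 - 1)) := by
    rw [map_mul, Matrix.SpecialLinearGroup.coe_mul]; noncomm_ring
  have hg' := mem_Cg.mp (f_mem f hf hg)
  have hh' := mem_Cg.mp (f_mem f hf hh)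
  have hh1 := mem_Cg.mp (hf h)
  rw [θ, e, HM_add, HM_add]
  rw [HM_of_mem (Nat.lt_succ_self n) (M := ((f g).1 - 1) * ((f h).1 - 1))
    (by rw [pow_succ]; exact hg'.mul hh1), zero_add]
  rfl

include hf in
theorem θ_zero (n : ℕ) (g : G) (hg : g ∈ (lcN G).Γ (n + 1)) : θ f n g = 0 :=
  HM_of_mem (Nat.lt_succ_self n) (mem_Cg.mp (f_mem f hf hg))

/-- the map from the total Lie ring to matrices -/
noncomputable def F : (lcN G).Tot →+ Matrix (Fin 2) (Fin 2) (TP B c) :=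
  (lcN G).totLift (θ f) (θ_add f hf) (θ_zero f hf)

theorem F_hm {n : ℕ} {g : G} (hg : g ∈ (lcN G).Γ n) :
    F f hf ((lcN G).hm n g) = HM n ((f g).1 - 1) :=
  (lcN G).totLift_hm _ (θ_add f hf) (θ_zero f hf) hg

theorem F_lie_hm {i j : ℕ} {g h : G} (hg : g ∈ (lcN G).Γ i) (hh : h ∈ (lcN G).Γ j) :
    F f hf ⁅(lcN G).hm i g, (lcN G).hm j h⁆ =
      F f hf ((lcN G).hm i g) * F f hf ((lcN G).hm j h) -
      F f hf ((lcN G).hm j h) * F f hf ((lcN G).hm i g) := by
  have hg' := mem_Cg.mp (f_mem f hf hg)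
  have hh' := mem_Cg.mp (f_mem f hf hh)
  have hgh := (lcN G).comm _ _ _ hg _ hh
  rw [(lcN G).lie_hm hg hh, F_hm f hf hgh, F_hm f hf hg, F_hm f hf hh, map_commutatorElement,
    comm_sub_one]
  set u := (f g).1 - 1 with hu
  set v := (f h).1 - 1 with hv
  set w := ((f g)⁻¹ * (f h)⁻¹).1 - 1 with hw
  have e : (u * v - v * u) * ((f g)⁻¹ * (f h)⁻¹).1 = (u * v - v * u) * w + (u * v - v * u) := by
    rw [hw]; noncomm_ring
  have hw' : EM tI w := mem_Cg.mp ((Cg tI).mul_mem ((Cg tI).inv_mem (hf g)) ((Cg tI).inv_mem (hf h)))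
  have huv : EM (tI ^ (i + j)) (u * v - v * u) := by
    rw [pow_add]
    refine (hg'.mul hh').sub ?_
    rw [mul_comm]
    exact hh'.mul hg'
  rw [e, HM_add, HM_of_mem (Nat.lt_succ_self (i + j)) (by rw [pow_succ]; exact huv.mul hw'),
    zero_add, HM_sub, HM_mul hg' hh', add_comm i j, HM_mul hh' hg']

theorem F_lie (x y : (lcN G).Tot) : F f hf ⁅x, y⁆ = F f hf x * F f hf y - F f hf y * F f hf x := by
  refine (lcN G).Tot_ind (p := fun x => F f hf ⁅x, y⁆ = F f hf x * F f hf y - F f hf y * F f hf x)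
    (by simp) ?_ ?_ x
  · intro n g hg
    refine (lcN G).Tot_ind (p := fun y => F f hf ⁅(lcN G).hm n g, y⁆ =
      F f hf ((lcN G).hm n g) * F f hf y - F f hf y * F f hf ((lcN G).hm n g))
      (by simp) ?_ ?_ y
    · intro m h hh
      exact F_lie_hm f hf hg hh
    · intro a b ha hb
      rw [lie_add, map_add, map_add, ha, hb]; noncomm_ring
  · intro a b ha hb
    rw [add_lie, map_add, map_add, ha, hb]; noncomm_ring

end GrHom

end Pool.Agent.Helper52.Inv
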