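import Pool.Agent.Helper52.Inv.Poly
import Pool.Agent.Helper52.Inv.GrHom
set_option autoImplicit false
open Matrix

namespace Pool.Agent.Helper52.Inv

namespace Comp

/-- `diag(s,-s)` -/
def Dg {A : Type*} [CommRing A] (s : A) : Matrix (Fin 2) (Fin 2) A := !![s, 0; 0, -s]
/-- antidiagonal matrices -/
def Ag {A : Type*} [CommRing A] (a b : A) : Matrix (Fin 2) (Fin 2) A := !![0, a; b, 0]

theorem Dg_Ag {A : Type*} [CommRing A] (s a b : A) :
    Dg s * Ag a b - Ag a b * Dg s = Ag (2 * s * a) (-(2 * s * b)) := by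
  ext i j; fin_cases i <;> fin_cases j <;> simp [Dg, Ag] <;> ring

theorem Ag_Ag {A : Type*} [CommRing A] (a b a' b' : A) :
    Ag a b * Ag a' b' - Ag a' b' * Ag a b = Dg (a * b' - a' * b) := by
  ext i j; fin_cases i <;> fin_cases j <;> simp [Dg, Ag] <;> ring

variable {L : Type*} [LieRing L] (G : ZG L) {A : Type*} [CommRing A]
  (F : L →+ Matrix (Fin 2) (Fin 2) A) (hF : ∀ x y, F ⁅x, y⁆ = F x * F y - F y * F x)

include hF

theorem F_T {h : G.E} {u : G.O} {s a b : A} (h1 : F h = Dg s) (h2 : F u = Ag a b) :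
    F ((G.T h u : G.O) : L) = Ag (2 * s * a) (-(2 * s * b)) := by
  rw [ZG.T_coe, hF, h1, h2, Dg_Ag]

theorem F_D {u v : G.O} {a b a' b' : A} (h1 : F u = Ag a b) (h2 : F v = Ag a' b') :
    F ((G.D u v : G.E) : L) = Dg (a * b' - a' * b) := by
  rw [ZG.D_coe, hF, h1, h2, Ag_Ag]

theorem F_Q {u v : G.O} {a b a' b' : A} (h1 : F u = Ag a b) (h2 : F v = Ag a' b') {h : G.E} {s : A}
    (h3 : F h = Dg s) : F ((G.Q u v h : G.E) : L) = Dg (-(2 * (a * b' + a' * b)) * s) := by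
  rw [ZG.Q_apply, F_D G F hF h1 (F_T G F hF h3 h2)]
  congr 1; ring

theorem F_Qpow {u v : G.O} {a b a' b' : A} (h1 : F u = Ag a b) (h2 : F v = Ag a' b') {h : G.E} {s : A}
    (h3 : F h = Dg s) (n : ℕ) :
    F (((G.Q u v ^ n) h : G.E) : L) = Dg ((-(2 * (a * b' + a' * b))) ^ n * s) := by
  induction n with
  | zero => simpa using h3
  | succ n ih =>
    rw [pow_succ', pow_succ']
    change F ((G.Q u v ((G.Q u v ^ n) h) : G.E) : L) = _
    rw [F_Q G F hF h1 h2 ih]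
    congr 1; ring

theorem F_Tpow {h : G.E} {s : A} (h1 : F h = Dg s) (n : ℕ) {u : G.O} {a b : A}
    (h2 : F u = Ag a b) : ∃ b', F (((G.T h ^ n) u : G.O) : L) = Ag ((2 * s) ^ n * a) b' := by
  induction n with
  | zero => exact ⟨b, by simpa using h2⟩
  | succ n ih =>
    obtain ⟨b', hb⟩ := ih
    refine ⟨-(2 * s * b'), ?_⟩
    rw [pow_succ']
    change F ((G.T h ((G.T h ^ n) u) : G.O) : L) = _
    rw [F_T G F hF h1 hb]
    congr 1; ring

variable (z : Fin 2 → G.O) {α β : Fin 2 → A} (hz : ∀ i, F (z i) = Ag (α i) (β i))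

include hz

theorem F_qp (g : ℕ × ℕ × ℕ) {h : G.E} {s : A} (h3 : F h = Dg s) :
    F ((G.qp z g h : G.E) : L) = Dg ((-(2 * (α 0 * β 0 + α 0 * β 0))) ^ g.1 *
      ((-(2 * (α 0 * β 1 + α 1 * β 0))) ^ g.2.1 * ((-(2 * (α 1 * β 1 + α 1 * β 1))) ^ g.2.2 * s))) := by
  rw [ZG.qp]
  exact F_Qpow G F hF (hz 0) (hz 0) (F_Qpow G F hF (hz 0) (hz 1) (F_Qpow G F hF (hz 1) (hz 1) h3 _) _) _

end Comp

/-- the polynomials with parameters in an arbitrary ring -/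
def alg {B : Type*} [CommRing B] (y0 y1 b k r : B) : ZG.VI → B
  | ZG.VI.n1 i => 2 * r ^ (i : ℕ)
  | ZG.VI.n2 m n g i => (2 * y0) ^ m * (2 * y1) ^ n *
      (2 * ((-16 * b) ^ g.1 * (-8 * k) ^ g.2.1 * (-16 * (r * k - r ^ 2 * b)) ^ g.2.2 * y0)) *
      (2 * r ^ (i : ℕ))
  | ZG.VI.n3 n g i => (2 * y1) ^ n *
      (2 * ((-16 * b) ^ g.1 * (-8 * k) ^ g.2.1 * (-16 * (r * k - r ^ 2 * b)) ^ g.2.2 * y1)) *
      (2 * r ^ (i : ℕ))
  | ZG.VI.n4 g i => 2 * ((-16 * b) ^ g.1 * (-8 * k) ^ g.2.1 * (-16 * (r * k - r ^ 2 * b)) ^ g.2.2 *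
      (4 * (k - 2 * r * b))) * (2 * r ^ (i : ℕ))

/-- degrees -/
def dg : ZG.VI → ℕ
  | ZG.VI.n1 _ => 1
  | ZG.VI.n2 m n g _ => m + n + (2 * g.1 + 2 * g.2.1 + 2 * g.2.2 + 1) + 1
  | ZG.VI.n3 n g _ => n + (2 * g.1 + 2 * g.2.1 + 2 * g.2.2 + 1) + 1
  | ZG.VI.n4 g _ => (2 * g.1 + 2 * g.2.1 + 2 * g.2.2 + 2) + 1

theorem al_eq (k : Type*) [CommRing k] (v : ZG.VI) :
    al k v = alg (vy0 k) (vy1 k) (vb k) (vk k) (vr k) v := by
  cases v <;> rfl

theorem map_alg {B C : Type*} [CommRing B] [CommRing C] (f : B →+* C) (y0 y1 b k r : B)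
    (v : ZG.VI) : f (alg y0 y1 b k r v) = alg (f y0) (f y1) (f b) (f k) (f r) v := by
  cases v <;> simp [alg, map_ofNat]

namespace Comp

open TP ZG

variable {B : Type*} [CommRing B] {c : ℕ}
variable {L : Type*} [LieRing L] (G : ZG L)
  (F : L →+ Matrix (Fin 2) (Fin 2) (TP B c)) (hF : ∀ x y, F ⁅x, y⁆ = F x * F y - F y * F x)
  (y : Fin 2 → G.E) (z : Fin 2 → G.O) (y0 y1 b k r : TP B c)
  (hy0 : F (y 0) = Dg (t * y0)) (hy1 : F (y 1) = Dg (t * y1))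
  (hz0 : F (z 0) = Ag (2 * t) (2 * t * b)) (hz1 : F (z 1) = Ag (2 * (t * r)) (2 * (t * (k - r * b))))

include hF hz0 hz1 in
theorem F_qp' (g : ℕ × ℕ × ℕ) {h : G.E} {s : TP B c} (h3 : F h = Dg s) :
    F ((G.qp z g h : G.E) : L) = Dg (t ^ (2 * g.1 + 2 * g.2.1 + 2 * g.2.2) *
      ((-16 * b) ^ g.1 * (-8 * k) ^ g.2.1 * (-16 * (r * k - r ^ 2 * b)) ^ g.2.2 * s)) := by
  have hz : ∀ i, F (z i) = Ag ((![2 * t, 2 * (t * r)] : Fin 2 → TP B c) i)
      ((![2 * t * b, 2 * (t * (k - r * b))] : Fin 2 → TP B c) i) := by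
    intro i; fin_cases i
    · exact hz0
    · exact hz1
  rw [F_qp G F hF z hz g h3]
  congr 1
  simp only [Matrix.cons_val_zero, Matrix.cons_val_one]
  have e1 : -(2 * (2 * t * (2 * t * b) + 2 * t * (2 * t * b))) = t ^ 2 * (-16 * b) := by ring
  have e2 : -(2 * (2 * t * (2 * (t * (k - r * b))) + 2 * (t * r) * (2 * t * b))) = t ^ 2 * (-8 * k) := by
    ring
  have e3 : -(2 * (2 * (t * r) * (2 * (t * (k - r * b))) + 2 * (t * r) * (2 * (t * (k - r * b))))) =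
    t ^ 2 * (-16 * (r * k - r ^ 2 * b)) := by ring
  rw [e1, e2, e3, mul_pow (t ^ 2), mul_pow (t ^ 2), mul_pow (t ^ 2), ← pow_mul, ← pow_mul,
    ← pow_mul, pow_add, pow_add]
  ring

include hF hy0 hy1 hz0 hz1 in
theorem F_N (v : VI) : F ((G.N y z v : G.O) : L) 0 1 = alg y0 y1 b k r v * t ^ dg v := by
  have hz : ∀ i : Fin 2, ∃ b', F (z i) = Ag (2 * (t * r ^ (i : ℕ))) b' := by
    intro i; fin_cases i
    · exact ⟨_, by simpa using hz0⟩
    · exact ⟨_, by simpa using hz1⟩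
  rcases v with i | ⟨m, n, g, i⟩ | ⟨n, g, i⟩ | ⟨g, i⟩
  · obtain ⟨b', hb⟩ := hz i
    simp only [ZG.N, hb, alg, dg, Ag, pow_one]
    simp
    ring
  · obtain ⟨b', hb⟩ := hz i
    have h1 := F_T G F hF (F_qp' G F hF z b k r hz0 hz1 g hy0) hb
    obtain ⟨b2, h2⟩ := F_Tpow G F hF hy1 n h1
    obtain ⟨b3, h3⟩ := F_Tpow G F hF hy0 m h2
    have h4 : F ((G.N y z (VI.n2 m n g i) : G.O) : L) = _ := h3
    rw [h4]
    simp only [Ag, alg, dg]
    simp only [Matrix.of_apply, Matrix.cons_val_zero, Matrix.cons_val_one]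
    rw [pow_succ, pow_add, pow_succ, pow_add, mul_pow 2 y0, mul_pow 2 y1, mul_pow 2 (t * y0),
      mul_pow 2 (t * y1), mul_pow t y0, mul_pow t y1]
    ring
  · obtain ⟨b', hb⟩ := hz i
    have h1 := F_T G F hF (F_qp' G F hF z b k r hz0 hz1 g hy1) hb
    obtain ⟨b2, h2⟩ := F_Tpow G F hF hy1 n h1
    have h4 : F ((G.N y z (VI.n3 n g i) : G.O) : L) = _ := h2
    rw [h4]
    simp only [Ag, alg, dg]
    simp only [Matrix.of_apply, Matrix.cons_val_zero, Matrix.cons_val_one]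
    rw [pow_succ, pow_add, pow_succ, mul_pow 2 y1, mul_pow 2 (t * y1), mul_pow t y1]
    ring
  · obtain ⟨b', hb⟩ := hz i
    have h0 : F ((G.D (z 0) (z 1) : G.E) : L) = Dg (t ^ 2 * (4 * (k - 2 * r * b))) := by
      rw [F_D G F hF hz0 hz1]; congr 1; ring
    have h1 := F_T G F hF (F_qp' G F hF z b k r hz0 hz1 g h0) hb
    have h4 : F ((G.N y z (VI.n4 g i) : G.O) : L) = _ := h1
    rw [h4]
    simp only [Ag, alg, dg]
    simp only [Matrix.of_apply, Matrix.cons_val_zero, Matrix.cons_val_one]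
    rw [pow_succ, pow_add _ _ 2]
    ring

end Comp

end Pool.Agent.Helper52.Inv
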