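import Pool.Agent.Helper52.Inv.Hat
import Pool.Agent.Helper45.InvINDEP
set_option autoImplicit false

namespace Pool.Agent.Helper52.Inv
open ZG

/-- reduction modulo `n` -/
noncomputable def red (n : ℕ) : BR ℤ →+* BR (ZMod n) :=
  Polynomial.mapRingHom (MvPolynomial.map (Int.castRingHom (ZMod n)))

theorem red_surj (n : ℕ) : Function.Surjective (red n) :=
  Polynomial.map_surjective _ (MvPolynomial.map_surjective _ (ZMod.ringHom_surjective _))

theorem red_ker (n : ℕ) {x : BR ℤ} (hx : red n x = 0) : ∃ w, x = (n : BR ℤ) * w := by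
  have h : x ∈ RingHom.ker (red n) := hx
  rw [red, Polynomial.ker_mapRingHom, MvPolynomial.ker_map, ZMod.ker_intCastRingHom,
    Ideal.map_span, Ideal.map_span, Set.image_singleton, Set.image_singleton,
    Ideal.mem_span_singleton'] at h
  obtain ⟨w, rfl⟩ := h
  refine ⟨w, ?_⟩
  rw [mul_comm]
  simp

theorem red_al (n : ℕ) (v : VI) : red n (al ℤ v) = al (ZMod n) v := by
  rw [al_eq, al_eq, map_alg]
  simp [red, vy0, vy1, vb, vk, vr]

theorem lift_indep (p : ℕ) (hp : p.Prime) (h2 : 2 < p) (e m : ℕ) (hme : m ≤ e) (c : VI →₀ ℤ)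
    (w : BR (ZMod (p ^ e)))
    (h : (c.sum fun v n => n • al (ZMod (p ^ e)) v) = (p : BR (ZMod (p ^ e))) ^ m * w) :
    ∀ v, (p : ℤ) ^ m ∣ c v := by
  obtain ⟨w', rfl⟩ := red_surj _ w
  have h1 : red (p ^ e) ((c.sum fun v n => n • al ℤ v) - (p : BR ℤ) ^ m * w') = 0 := by
    rw [map_sub, map_mul, map_pow, map_natCast, ← h, Finsupp.sum, Finsupp.sum, map_sum, sub_eq_zero]
    refine Finset.sum_congr rfl fun v _ => ?_
    rw [map_zsmul, red_al]
  obtain ⟨w3, hw3⟩ := red_ker _ h1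
  refine Pool.Agent.Helper45.InvINDEP.indep p hp h2 m c ⟨w' + (p : BR ℤ) ^ (e - m) * w3, ?_⟩
  rw [sub_eq_iff_eq_add] at hw3
  rw [hw3, mul_add, ← mul_assoc, ← pow_add, Nat.add_sub_cancel' hme]
  push_cast
  ring

end Pool.Agent.Helper52.Inv
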