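import Pool.Agent.Helper52.Inv.HomD
import Pool.Agent.Helper52.Inv.Lift
set_option autoImplicit false
open scoped commutatorElement

namespace Pool.Agent.Helper52.Inv
open ZG TP GrHom Hat

/-- The data: a group with an involution, generated by fixed and inverted elements, and a
homomorphism to `SL_2` of the truncated polynomial ring mapping the generators to the generic ones. -/
structure Dat (p e n : ℕ) (G : Type*) [Group G] where
  I : Inl G
  c : Fin 2 → G
  d : Fin 2 → G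
  hc : ∀ i, I.φ (c i) = c i
  hd : ∀ i, I.φ (d i) = (d i)⁻¹
  hgen : Subgroup.closure (Set.range c ∪ Set.range d) = ⊤
  f : G →* Matrix.SpecialLinearGroup (Fin 2) (TP (BR (ZMod (p ^ e))) n)
  fc0 : f (c 0) = ch (un (ι (vy0 _)))
  fc1 : f (c 1) = ch (un (ι (vy1 _)))
  fd0 : f (d 0) = dh (t * ι 1) (t * ι (vb _))
  fd1 : f (d 1) = dh (t * ι (vr _)) (t * ι (vk _ - vr _ * vb _))

namespace Dat

variable {p e n : ℕ} {G : Type*} [Group G] (X : Dat p e n G)

theorem hf (g : G) : X.f g ∈ Cg tI := by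
  have hg : g ∈ Subgroup.closure (Set.range X.c ∪ Set.range X.d) := by rw [X.hgen]; trivial
  have h1 : Subgroup.closure (Set.range X.c ∪ Set.range X.d) ≤ (Cg tI).comap X.f := by
    rw [Subgroup.closure_le]
    rintro _ (⟨i, rfl⟩ | ⟨i, rfl⟩)
    · change X.f (X.c i) ∈ Cg tI
      fin_cases i
      · change X.f (X.c 0) ∈ Cg tI
        rw [X.fc0]; exact ch_mem _
      · change X.f (X.c 1) ∈ Cg tI
        rw [X.fc1]; exact ch_mem _
    · change X.f (X.d i) ∈ Cg tI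
      fin_cases i
      · change X.f (X.d 0) ∈ Cg tI
        rw [X.fd0]; exact dh_mem _ _
      · change X.f (X.d 1) ∈ Cg tI
        rw [X.fd1]; exact dh_mem _ _
  exact h1 hg

/-- the even generators -/
noncomputable def y : Fin 2 → X.I.zg.E := X.I.yE X.c X.hc
/-- the odd generators -/
noncomputable def z : Fin 2 → X.I.zg.O := X.I.zO X.d X.hd

theorem F_N (v : VI) : F X.f X.hf ((X.I.zg.N X.y X.z v : X.I.zg.O) : (lcN G).Tot) 0 1 =
    ι (al (ZMod (p ^ e)) v) * t ^ dg v := by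
  rw [al_eq, map_alg]
  refine Comp.F_N X.I.zg (F X.f X.hf) (F_lie X.f X.hf) X.y X.z _ _ _ _ _ ?_ ?_ ?_ ?_ v
  · change F X.f X.hf ((lcN G).hm 1 (X.c 0)) = _
    rw [F_hm X.f X.hf ((lcN G).mem_one _), X.fc0, HM_ch]
  · change F X.f X.hf ((lcN G).hm 1 (X.c 1)) = _
    rw [F_hm X.f X.hf ((lcN G).mem_one _), X.fc1, HM_ch]
  · change F X.f X.hf ((lcN G).hm 1 (X.d 0)) = _
    rw [F_hm X.f X.hf ((lcN G).mem_one _), X.fd0, HM_dh, map_one, mul_one, mul_assoc]
  · change F X.f X.hf ((lcN G).hm 1 (X.d 1)) = _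
    rw [F_hm X.f X.hf ((lcN G).mem_one _), X.fd1, HM_dh, map_sub, map_mul]

theorem Hom_N (v : VI) : Hom (dg v) ((X.I.zg.N X.y X.z v : X.I.zg.O) : (lcN G).Tot) :=
  Pool.Agent.Helper52.Inv.Hom_N X.I.zg X.y X.z (fun i => ⟨X.c i, (lcN G).mem_one _, rfl⟩)
    (fun i => ⟨X.d i, (lcN G).mem_one _, rfl⟩) v

theorem κ_F_N {j : ℕ} (hj : j ≤ n) (v : VI) :
    κ j (F X.f X.hf ((X.I.zg.N X.y X.z v : X.I.zg.O) : (lcN G).Tot) 0 1) =
    if dg v = j then al (ZMod (p ^ e)) v else 0 := by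
  rw [X.F_N, κ_t hj]

/-- the additive map computing a coefficient -/
noncomputable def kF {j : ℕ} (hj : j ≤ n) : X.I.zg.O →+ BR (ZMod (p ^ e)) :=
  AddMonoidHom.mk' (fun x => κ j (F X.f X.hf (x : (lcN G).Tot) 0 1)) (fun a b => by
    rw [AddSubgroup.coe_add, map_add, Matrix.add_apply, κ_add hj])

theorem fin_step (hp : p.Prime) (h2 : 2 < p) {m j : ℕ} (hm : m ≤ e) (hj : j ≤ n) {δ : G}
    (hδ : δ ∈ (lcN G).Γ j) (hinv : X.I.φ δ = δ⁻¹)
    (hcong : EM (Ideal.span {(p : TP (BR (ZMod (p ^ e))) n) ^ m}) ((X.f δ).1 - 1)) :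
    ∃ x : X.I.zg.O, Hom j (x : (lcN G).Tot) ∧ (lcN G).hm j δ = (p ^ m) • (x : (lcN G).Tot) := by
  set x : X.I.zg.O := ⟨(lcN G).hm j δ, X.I.hm_mem_O hδ hinv⟩ with hx
  have hxV : x ∈ X.I.zg.VS X.y X.z :=
    X.I.zg.odd_mem X.y X.z (fun x h1 h2 => X.I.E_inf_O h1 h2) x
      (X.I.hm_mem_MS X.c X.d X.hc X.hd X.hgen j hδ)
  obtain ⟨cc, hcc⟩ := X.I.zg.VS_exists X.y X.z hxV
  -- the degree `j` part
  have h1 : (lcN G).hm j δ = (cc.filter (fun v => dg v = j)).sum
      (fun v n => n • ((X.I.zg.N X.y X.z v : X.I.zg.O) : (lcN G).Tot)) := by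
    have e1 : (lcN G).hm j δ = pr j ((lcN G).hm j δ) := by rw [pr_hm j hδ, if_pos rfl]
    have e2 : (lcN G).hm j δ = ((x : X.I.zg.O) : (lcN G).Tot) := rfl
    rw [e1, e2, hcc, Finsupp.sum, AddSubgroup.val_finsetSum, map_sum, Finsupp.sum,
      Finsupp.support_filter, Finset.sum_filter]
    refine Finset.sum_congr rfl fun v _ => ?_
    rw [AddSubgroup.coe_zsmul, map_zsmul, pr_Hom j (X.Hom_N v)]
    split_ifs with h
    · rw [Finsupp.filter_apply_pos (fun v => dg v = j) cc h]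
    · rw [smul_zero]
  have h3 : X.kF hj x = (cc.filter (fun v => dg v = j)).sum
      (fun v n => n • al (ZMod (p ^ e)) v) := by
    rw [hcc, Finsupp.sum, map_sum, Finsupp.sum, Finsupp.support_filter, Finset.sum_filter]
    refine Finset.sum_congr rfl fun v _ => ?_
    rw [map_zsmul]
    have : X.kF hj (X.I.zg.N X.y X.z v) = if dg v = j then al (ZMod (p ^ e)) v else 0 :=
      X.κ_F_N hj v
    rw [this]
    split_ifs with h
    · rw [Finsupp.filter_apply_pos (fun v => dg v = j) cc h]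
    · rw [smul_zero]
  have h4 : ∃ w, X.kF hj x = (p : BR (ZMod (p ^ e))) ^ m * w := by
    have e1 : X.kF hj x = κ j (F X.f X.hf ((lcN G).hm j δ) 0 1) := rfl
    rw [e1, F_hm X.f X.hf hδ, HM_apply, κ_H hj]
    have := hcong 0 1
    rw [Ideal.mem_span_singleton'] at this
    obtain ⟨w, hw⟩ := this
    refine ⟨κ j w, ?_⟩
    rw [← hw]
    have e3 : w * (p : TP (BR (ZMod (p ^ e))) n) ^ m = ι ((p : BR (ZMod (p ^ e))) ^ m) * w := by
      rw [map_pow, map_natCast, mul_comm]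
    rw [e3, κ_ι_mul hj]
  obtain ⟨w, hw⟩ := h4
  rw [h3] at hw
  have h5 := lift_indep p hp h2 e m hm _ w hw
  choose q hq using h5
  refine ⟨∑ v ∈ (cc.filter (fun v => dg v = j)).support, q v • X.I.zg.N X.y X.z v, ?_, ?_⟩
  · rw [AddSubgroup.val_finsetSum]
    change _ ∈ HomS j
    refine AddSubgroup.sum_mem _ fun v hv => ?_
    rw [AddSubgroup.coe_zsmul]
    refine AddSubgroup.zsmul_mem _ ?_ _
    have hv' : dg v = j := by
      rw [Finsupp.support_filter, Finset.mem_filter] at hv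
      exact hv.2
    exact Hom.cast hv' (X.Hom_N v)
  · rw [h1, Finsupp.sum, AddSubgroup.val_finsetSum, Finset.smul_sum]
    refine Finset.sum_congr rfl fun v _ => ?_
    rw [hq v, AddSubgroup.coe_zsmul, mul_smul]
    have : ((p : ℤ) ^ m) = ((p ^ m : ℕ) : ℤ) := by push_cast; rfl
    rw [this, natCast_zsmul]

end Dat

end Pool.Agent.Helper52.Inv
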