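import Pool.Agent.Helper52.Inv.Odd
set_option autoImplicit false
open scoped commutatorElement

namespace Pool.Agent.Helper52.Inv

namespace Inl
variable {G : Type*} [Group G] (I : Inl G) (c d : Fin 2 → G) (hc : ∀ i, I.φ (c i) = c i)
  (hd : ∀ i, I.φ (d i) = (d i)⁻¹)

/-- the even generators -/
noncomputable def yE (i : Fin 2) : I.zg.E := ⟨(lcN G).hm 1 (c i), I.hm_mem_E ((lcN G).mem_one _) (hc i)⟩
/-- the odd generators -/
noncomputable def zO (i : Fin 2) : I.zg.O := ⟨(lcN G).hm 1 (d i), I.hm_mem_O ((lcN G).mem_one _) (hd i)⟩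

theorem W_lie {w x : (lcN G).Tot}
    (hw : w ∈ AddSubgroup.closure (Set.range (fun i => (lcN G).hm 1 (c i)) ∪
      Set.range (fun i => (lcN G).hm 1 (d i))))
    (hx : x ∈ I.zg.MS (I.yE c hc) (I.zO d hd)) : ⁅w, x⁆ ∈ I.zg.MS (I.yE c hc) (I.zO d hd) := by
  induction hw using AddSubgroup.closure_induction with
  | mem w hw =>
    rcases hw with ⟨i, rfl⟩ | ⟨i, rfl⟩
    · exact I.zg.ad_y_MS (I.yE c hc) (I.zO d hd) i hx
    · exact I.zg.ad_z_MS (I.yE c hc) (I.zO d hd) i hx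
  | zero => rw [zero_lie]; exact AddSubgroup.zero_mem _
  | add a b _ _ h1 h2 => rw [add_lie]; exact AddSubgroup.add_mem _ h1 h2
  | neg a _ h => rw [neg_lie]; exact AddSubgroup.neg_mem _ h

variable (hgen : Subgroup.closure (Set.range c ∪ Set.range d) = ⊤)

include hgen in
theorem hm_one_mem (g : G) : (lcN G).hm 1 g ∈
    AddSubgroup.closure (Set.range (fun i => (lcN G).hm 1 (c i)) ∪
      Set.range (fun i => (lcN G).hm 1 (d i))) := by
  have hg : g ∈ Subgroup.closure (Set.range c ∪ Set.range d) := by rw [hgen]; trivial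
  induction hg using Subgroup.closure_induction with
  | mem g hg =>
    rcases hg with ⟨i, rfl⟩ | ⟨i, rfl⟩
    · exact AddSubgroup.subset_closure (Or.inl ⟨i, rfl⟩)
    · exact AddSubgroup.subset_closure (Or.inr ⟨i, rfl⟩)
  | one => rw [(lcN G).hm_one]; exact AddSubgroup.zero_mem _
  | mul a b _ _ h1 h2 =>
    rw [(lcN G).hm_mul ((lcN G).mem_one _) ((lcN G).mem_one _)]
    exact AddSubgroup.add_mem _ h1 h2
  | inv a _ h => rw [(lcN G).hm_inv ((lcN G).mem_one _)]; exact AddSubgroup.neg_mem _ h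

include hgen in
theorem hm_mem_MS (n : ℕ) {g : G} (hg : g ∈ (lcN G).Γ n) :
    (lcN G).hm n g ∈ I.zg.MS (I.yE c hc) (I.zO d hd) := by
  rcases n with _ | n
  · rw [(lcN G).hm_zero]; exact AddSubgroup.zero_mem _
  induction n generalizing g with
  | zero =>
    have h := hm_one_mem c d hgen g
    refine (?_ : AddSubgroup.closure _ ≤ I.zg.MS (I.yE c hc) (I.zO d hd)) h
    rw [AddSubgroup.closure_le]
    rintro _ (⟨i, rfl⟩ | ⟨i, rfl⟩)
    · exact I.zg.y_mem_MS (I.yE c hc) (I.zO d hd) i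
    · exact I.zg.z_mem_MS (I.yE c hc) (I.zO d hd) i
  | succ n ih =>
    have hg' : g ∈ ⁅LC (⊤ : Subgroup G) n, (⊤ : Subgroup G)⁆ := hg
    rw [Subgroup.commutator_def] at hg'
    have key : (lcN G).hm (n + 1 + 1) g ∈ I.zg.MS (I.yE c hc) (I.zO d hd) ∧
        g ∈ (lcN G).Γ (n + 1 + 1) := by
      refine Subgroup.closure_induction (p := fun g _ => (lcN G).hm (n + 1 + 1) g ∈ I.zg.MS (I.yE c hc) (I.zO d hd) ∧
        g ∈ (lcN G).Γ (n + 1 + 1)) ?_ ?_ ?_ ?_ hg'
      · rintro g ⟨a, ha, b, -, rfl⟩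
        have ha' : a ∈ (lcN G).Γ (n + 1) := ha
        refine ⟨?_, (lcN G).comm (n + 1) 1 a ha' b ((lcN G).mem_one b)⟩
        rw [← (lcN G).lie_hm (j := 1) ha' ((lcN G).mem_one b), ← lie_skew]
        exact AddSubgroup.neg_mem _ (I.W_lie c d hc hd (hm_one_mem c d hgen b) (ih ha'))
      · exact ⟨by rw [(lcN G).hm_one]; exact AddSubgroup.zero_mem _, Subgroup.one_mem _⟩
      · intro a b _ _ h1 h2
        refine ⟨?_, Subgroup.mul_mem _ h1.2 h2.2⟩
        rw [(lcN G).hm_mul h1.2 h2.2]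
        exact AddSubgroup.add_mem _ h1.1 h2.1
      · intro a _ h1
        refine ⟨?_, Subgroup.inv_mem _ h1.2⟩
        rw [(lcN G).hm_inv h1.2]
        exact AddSubgroup.neg_mem _ h1.1
    exact key.1

end Inl
end Pool.Agent.Helper52.Inv
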