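import Mathlib
set_option autoImplicit false
open scoped commutatorElement DirectSum

namespace Pool.Agent.Helper52.Inv

/-- an N-series -/
structure NSer (G : Type*) [Group G] where
  Γ : ℕ → Subgroup G
  normal : ∀ n, (Γ n).Normal
  anti : ∀ n, Γ (n + 1) ≤ Γ n
  comm : ∀ i j, ∀ x ∈ Γ i, ∀ y ∈ Γ j, ⁅x, y⁆ ∈ Γ (i + j)
  one : Γ 1 = ⊤

namespace NSer

variable {G : Type*} [Group G] (S : NSer G)

instance (n : ℕ) : (S.Γ n).Normal := S.normal n

theorem antitone {m n : ℕ} (h : m ≤ n) : S.Γ n ≤ S.Γ m := by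
  induction h with
  | refl => exact le_rfl
  | step _ ih => exact (S.anti _).trans ih

theorem mem_one (x : G) : x ∈ S.Γ 1 := by rw [S.one]; exact Subgroup.mem_top x
theorem mem_zero (x : G) : x ∈ S.Γ 0 := S.anti 0 (S.mem_one x)

/-- elements of `Γ n` are central modulo `Γ (n+1)` -/
theorem central (n : ℕ) {w : G} (hw : w ∈ S.Γ n) (x : G) :
    Commute (QuotientGroup.mk' (S.Γ (n + 1)) w) (QuotientGroup.mk' (S.Γ (n + 1)) x) := by
  rw [← commutatorElement_eq_one_iff_commute, ← map_commutatorElement]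
  rw [QuotientGroup.mk'_apply, QuotientGroup.eq_one_iff]
  exact S.comm n 1 w hw x (S.mem_one x)

theorem mk_eq_iff (n : ℕ) (a b : G) :
    QuotientGroup.mk' (S.Γ (n + 1)) a = QuotientGroup.mk' (S.Γ (n + 1)) b ↔ a⁻¹ * b ∈ S.Γ (n + 1) := by
  rw [QuotientGroup.mk'_apply, QuotientGroup.mk'_apply, QuotientGroup.eq]

theorem mul_left_mod (i j : ℕ) {x x' y : G} (hx' : x' ∈ S.Γ i) (hy : y ∈ S.Γ j) :
    QuotientGroup.mk' (S.Γ (i + j + 1)) ⁅x * x', y⁆ =
      QuotientGroup.mk' (S.Γ (i + j + 1)) (⁅x, y⁆ * ⁅x', y⁆) := by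
  rw [commutatorElement_mul_left_eq_conj_mul]
  have h1 := S.central (i + j) (S.comm i j x' hx' y hy) x
  have h2 := S.central (i + j) (S.comm i j x' hx' y hy) ⁅x, y⁆
  simp only [map_mul, map_inv] at h1 h2 ⊢
  rw [← h1.eq, mul_inv_cancel_right, h2.eq]

theorem mul_right_mod (i j : ℕ) {x y y' : G} (hx : x ∈ S.Γ i) (hy' : y' ∈ S.Γ j) :
    QuotientGroup.mk' (S.Γ (i + j + 1)) ⁅x, y * y'⁆ =
      QuotientGroup.mk' (S.Γ (i + j + 1)) (⁅x, y⁆ * ⁅x, y'⁆) := by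
  rw [commutatorElement_mul_right_eq_mul_conj]
  have h1 := S.central (i + j) (S.comm i j x hx y' hy') y
  simp only [map_mul, map_inv] at h1 ⊢
  rw [mul_assoc, mul_assoc, ← mul_assoc (QuotientGroup.mk' (S.Γ (i + j + 1)) y), ← h1.eq,
    mul_inv_cancel_right]

/-- the graded pieces -/
def gr (n : ℕ) : Type _ := Additive ↥((S.Γ n).map (QuotientGroup.mk' (S.Γ (n + 1))))

noncomputable instance (n : ℕ) : AddCommGroup (S.gr n) :=
  { (inferInstance : AddGroup (Additive ↥((S.Γ n).map (QuotientGroup.mk' (S.Γ (n + 1)))))) with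
    add_comm := by
      rintro ⟨_, ⟨x, hx, rfl⟩⟩ ⟨_, ⟨y, hy, rfl⟩⟩
      exact congrArg Additive.ofMul (Subtype.ext (S.central n hx y).eq) }

open Classical in
/-- the class of `g` in the `n`-th graded piece (zero if `g` is not in `Γ n`) -/
noncomputable def cl (n : ℕ) (g : G) : S.gr n :=
  if h : g ∈ S.Γ n then Additive.ofMul ⟨QuotientGroup.mk' (S.Γ (n + 1)) g, ⟨g, h, rfl⟩⟩ else 0

theorem cl_of_mem {n : ℕ} {g : G} (h : g ∈ S.Γ n) :
    S.cl n g = Additive.ofMul ⟨QuotientGroup.mk' (S.Γ (n + 1)) g, ⟨g, h, rfl⟩⟩ := dif_pos h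

theorem cl_eq_iff {n : ℕ} {g h : G} (hg : g ∈ S.Γ n) (hh : h ∈ S.Γ n) :
    S.cl n g = S.cl n h ↔ g⁻¹ * h ∈ S.Γ (n + 1) := by
  rw [S.cl_of_mem hg, S.cl_of_mem hh, ← S.mk_eq_iff]
  constructor
  · intro e
    exact congrArg Subtype.val (Additive.ofMul.injective e)
  · intro e
    exact congrArg Additive.ofMul (Subtype.ext e)

theorem cl_mul {n : ℕ} {g h : G} (hg : g ∈ S.Γ n) (hh : h ∈ S.Γ n) :
    S.cl n (g * h) = S.cl n g + S.cl n h := by
  rw [S.cl_of_mem hg, S.cl_of_mem hh, S.cl_of_mem ((S.Γ n).mul_mem hg hh)]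
  rfl

theorem cl_one (n : ℕ) : S.cl n 1 = 0 := by
  have := S.cl_mul (S.Γ n).one_mem (S.Γ n).one_mem
  rw [mul_one] at this
  exact left_eq_add.mp this

theorem cl_inv {n : ℕ} {g : G} (hg : g ∈ S.Γ n) : S.cl n g⁻¹ = - S.cl n g := by
  have := S.cl_mul ((S.Γ n).inv_mem hg) hg
  rw [inv_mul_cancel, cl_one] at this
  exact eq_neg_of_add_eq_zero_left this.symm

theorem cl_eq_zero_iff {n : ℕ} {g : G} (hg : g ∈ S.Γ n) : S.cl n g = 0 ↔ g ∈ S.Γ (n + 1) := by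
  rw [← S.cl_one n, eq_comm, S.cl_eq_iff (S.Γ n).one_mem hg, inv_one, one_mul]

theorem cl_pow {n : ℕ} {g : G} (hg : g ∈ S.Γ n) (k : ℕ) : S.cl n (g ^ k) = k • S.cl n g := by
  induction k with
  | zero => simp [cl_one]
  | succ k ih => rw [pow_succ, S.cl_mul ((S.Γ n).pow_mem hg k) hg, ih, succ_nsmul]

theorem exists_cl {n : ℕ} (a : S.gr n) : ∃ g ∈ S.Γ n, S.cl n g = a := by
  obtain ⟨_, ⟨x, hx, rfl⟩⟩ := a
  exact ⟨x, hx, S.cl_of_mem hx⟩

theorem cl_comm_congr {i j : ℕ} {x x' y y' : G} (hx : x ∈ S.Γ i) (hx' : x' ∈ S.Γ i)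
    (hy : y ∈ S.Γ j) (hy' : y' ∈ S.Γ j) (h1 : S.cl i x = S.cl i x') (h2 : S.cl j y = S.cl j y') :
    S.cl (i + j) ⁅x, y⁆ = S.cl (i + j) ⁅x', y'⁆ := by
  rw [S.cl_eq_iff hx hx'] at h1
  rw [S.cl_eq_iff hy hy'] at h2
  rw [S.cl_eq_iff (S.comm _ _ _ hx _ hy) (S.comm _ _ _ hx' _ hy'), ← S.mk_eq_iff]
  have e1 : QuotientGroup.mk' (S.Γ (i + j + 1)) ⁅x', y⁆ = QuotientGroup.mk' (S.Γ (i + j + 1)) ⁅x, y⁆ := by
    have h3 : ⁅x⁻¹ * x', y⁆ ∈ S.Γ (i + j + 1) := by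
      have := S.comm _ _ _ h1 _ hy
      rwa [show i + 1 + j = i + j + 1 by ring] at this
    have := S.mul_left_mod i j (x := x) (S.anti i h1) hy
    rw [mul_inv_cancel_left] at this
    rw [this, map_mul]
    have h4 : QuotientGroup.mk' (S.Γ (i + j + 1)) ⁅x⁻¹ * x', y⁆ = 1 := by
      rw [QuotientGroup.mk'_apply, QuotientGroup.eq_one_iff]; exact h3
    rw [h4, mul_one]
  have e2 : QuotientGroup.mk' (S.Γ (i + j + 1)) ⁅x', y'⁆ = QuotientGroup.mk' (S.Γ (i + j + 1)) ⁅x', y⁆ := by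
    have h3 : ⁅x', y⁻¹ * y'⁆ ∈ S.Γ (i + j + 1) := by
      have := S.comm _ _ _ hx' _ h2
      rwa [show i + (j + 1) = i + j + 1 by ring] at this
    have := S.mul_right_mod i j (y := y) hx' (S.anti j h2)
    rw [mul_inv_cancel_left] at this
    rw [this, map_mul]
    have h4 : QuotientGroup.mk' (S.Γ (i + j + 1)) ⁅x', y⁻¹ * y'⁆ = 1 := by
      rw [QuotientGroup.mk'_apply, QuotientGroup.eq_one_iff]; exact h3
    rw [h4, mul_one]
  rw [e2, e1]

/-- the bracket of two graded pieces -/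
noncomputable def bk (i j : ℕ) (a : S.gr i) (b : S.gr j) : S.gr (i + j) :=
  S.cl (i + j) ⁅(S.exists_cl a).choose, (S.exists_cl b).choose⁆

theorem bk_cl {i j : ℕ} {x y : G} (hx : x ∈ S.Γ i) (hy : y ∈ S.Γ j) :
    S.bk i j (S.cl i x) (S.cl j y) = S.cl (i + j) ⁅x, y⁆ := by
  have h1 := (S.exists_cl (S.cl i x)).choose_spec
  have h2 := (S.exists_cl (S.cl j y)).choose_spec
  exact S.cl_comm_congr h1.1 hx h2.1 hy h1.2 h2.2

theorem bk_add_left {i j : ℕ} (a a' : S.gr i) (b : S.gr j) :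
    S.bk i j (a + a') b = S.bk i j a b + S.bk i j a' b := by
  obtain ⟨x, hx, rfl⟩ := S.exists_cl a
  obtain ⟨x', hx', rfl⟩ := S.exists_cl a'
  obtain ⟨y, hy, rfl⟩ := S.exists_cl b
  rw [← S.cl_mul hx hx', S.bk_cl ((S.Γ i).mul_mem hx hx') hy, S.bk_cl hx hy, S.bk_cl hx' hy,
    ← S.cl_mul (S.comm _ _ _ hx _ hy) (S.comm _ _ _ hx' _ hy),
    S.cl_eq_iff (S.comm _ _ _ ((S.Γ i).mul_mem hx hx') _ hy)
      ((S.Γ _).mul_mem (S.comm _ _ _ hx _ hy) (S.comm _ _ _ hx' _ hy)), ← S.mk_eq_iff]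
  exact S.mul_left_mod i j hx' hy

theorem bk_add_right {i j : ℕ} (a : S.gr i) (b b' : S.gr j) :
    S.bk i j a (b + b') = S.bk i j a b + S.bk i j a b' := by
  obtain ⟨x, hx, rfl⟩ := S.exists_cl a
  obtain ⟨y, hy, rfl⟩ := S.exists_cl b
  obtain ⟨y', hy', rfl⟩ := S.exists_cl b'
  rw [← S.cl_mul hy hy', S.bk_cl hx ((S.Γ j).mul_mem hy hy'), S.bk_cl hx hy, S.bk_cl hx hy',
    ← S.cl_mul (S.comm _ _ _ hx _ hy) (S.comm _ _ _ hx _ hy'),
    S.cl_eq_iff (S.comm _ _ _ hx _ ((S.Γ j).mul_mem hy hy'))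
      ((S.Γ _).mul_mem (S.comm _ _ _ hx _ hy) (S.comm _ _ _ hx _ hy')), ← S.mk_eq_iff]
  exact S.mul_right_mod i j hx hy'

/-- the total graded object -/
def Tot : Type _ := ⨁ n, S.gr n

noncomputable instance : AddCommGroup S.Tot := inferInstanceAs (AddCommGroup (⨁ n, S.gr n))

/-- inclusion of a graded piece -/
noncomputable def inc (n : ℕ) : S.gr n →+ S.Tot := DirectSum.of S.gr n

/-- homogeneous elements -/
noncomputable def hm (n : ℕ) (g : G) : S.Tot := S.inc n (S.cl n g)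

theorem Tot_ind {p : S.Tot → Prop} (h0 : p 0) (h1 : ∀ n, ∀ g ∈ S.Γ n, p (S.hm n g))
    (hadd : ∀ x y, p x → p y → p (x + y)) (x : S.Tot) : p x := by
  refine DirectSum.induction_on x h0 ?_ hadd
  intro n a
  obtain ⟨g, hg, rfl⟩ := S.exists_cl a
  exact h1 n g hg

theorem hm_congr {m n : ℕ} (h : m = n) (g : G) : S.hm m g = S.hm n g := by rw [h]

theorem hm_mul {n : ℕ} {g h : G} (hg : g ∈ S.Γ n) (hh : h ∈ S.Γ n) :
    S.hm n (g * h) = S.hm n g + S.hm n h := by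
  simp only [hm, S.cl_mul hg hh, map_add]

theorem hm_inv {n : ℕ} {g : G} (hg : g ∈ S.Γ n) : S.hm n g⁻¹ = - S.hm n g := by
  simp only [hm, S.cl_inv hg, map_neg]

theorem hm_one (n : ℕ) : S.hm n 1 = 0 := by simp only [hm, S.cl_one, map_zero]

theorem hm_succ {n : ℕ} {g : G} (hg : g ∈ S.Γ (n + 1)) : S.hm n g = 0 := by
  rw [hm, (S.cl_eq_zero_iff (S.anti n hg)).mpr hg, map_zero]

theorem inc_injective (n : ℕ) : Function.Injective (S.inc n) := DirectSum.of_injective n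

theorem hm_eq_of_mk {n : ℕ} {g h : G} (hg : g ∈ S.Γ n) (hh : h ∈ S.Γ n)
    (e : QuotientGroup.mk' (S.Γ (n + 1)) g = QuotientGroup.mk' (S.Γ (n + 1)) h) :
    S.hm n g = S.hm n h := by
  rw [hm, hm, (S.cl_eq_iff hg hh).mpr ((S.mk_eq_iff n g h).mp e)]

/-- the bracket of graded pieces as a biadditive map -/
noncomputable def bkHom (i j : ℕ) : S.gr i →+ S.gr j →+ S.gr (i + j) :=
  AddMonoidHom.mk' (fun a => AddMonoidHom.mk' (S.bk i j a) (S.bk_add_right a))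
    (fun a a' => by ext b; exact S.bk_add_left a a' b)

/-- the total bracket -/
noncomputable def brk : S.Tot →+ S.Tot →+ S.Tot :=
  DirectSum.toAddMonoid (fun i => AddMonoidHom.flip (DirectSum.toAddMonoid (fun j =>
    AddMonoidHom.flip ((AddMonoidHom.compHom (S.inc (i + j))).comp (S.bkHom i j)))))

theorem brk_inc (i j : ℕ) (a : S.gr i) (b : S.gr j) :
    S.brk (S.inc i a) (S.inc j b) = S.inc (i + j) (S.bk i j a b) := by
  simp only [brk, inc]
  erw [DirectSum.toAddMonoid_of]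
  rw [AddMonoidHom.flip_apply]
  erw [DirectSum.toAddMonoid_of]
  rfl

theorem brk_hm {i j : ℕ} {x y : G} (hx : x ∈ S.Γ i) (hy : y ∈ S.Γ j) :
    S.brk (S.hm i x) (S.hm j y) = S.hm (i + j) ⁅x, y⁆ := by
  rw [hm, hm, brk_inc, S.bk_cl hx hy, hm]

theorem brk_skew (x y : S.Tot) : S.brk x y + S.brk y x = 0 := by
  refine S.Tot_ind (p := fun x => S.brk x y + S.brk y x = 0) (by simp) ?_ ?_ x
  · intro i g hg
    refine S.Tot_ind (p := fun y => S.brk (S.hm i g) y + S.brk y (S.hm i g) = 0) (by simp) ?_ ?_ y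
    · intro j h hh
      rw [S.brk_hm hg hh, S.brk_hm hh hg, S.hm_congr (add_comm j i), ← commutatorElement_inv g h,
        S.hm_inv (S.comm _ _ _ hg _ hh), add_neg_cancel]
    · intro a b ha hb
      rw [map_add, map_add, AddMonoidHom.add_apply,
        show S.brk (S.hm i g) a + S.brk (S.hm i g) b + (S.brk a (S.hm i g) + S.brk b (S.hm i g)) =
          (S.brk (S.hm i g) a + S.brk a (S.hm i g)) + (S.brk (S.hm i g) b + S.brk b (S.hm i g)) by
            abel, ha, hb, add_zero]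
  · intro a b ha hb
    rw [map_add, map_add, AddMonoidHom.add_apply,
        show S.brk a y + S.brk b y + (S.brk y a + S.brk y b) =
          (S.brk a y + S.brk y a) + (S.brk b y + S.brk y b) by abel, ha, hb, add_zero]

theorem brk_self (x : S.Tot) : S.brk x x = 0 := by
  refine S.Tot_ind (p := fun x => S.brk x x = 0) (by simp) ?_ ?_ x
  · intro i g hg
    rw [S.brk_hm hg hg, commutatorElement_self, S.hm_one]
  · intro a b ha hb
    have := S.brk_skew a b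
    rw [map_add, map_add, AddMonoidHom.add_apply, AddMonoidHom.add_apply, ha, hb, zero_add,
      add_zero, add_comm, this]

/-- the group identity behind the Jacobi identity -/
theorem jacobi_group {H : Type*} [Group H] (x y z : H) (h1 : Commute ⁅x, y⁆ ⁅x, z⁆)
    (h2 : Commute ⁅x, z⁆ ⁅y, z⁆) (h3 : Commute ⁅x, y⁆ ⁅y, z⁆) (h4 : ∀ w, Commute ⁅y, ⁅x, z⁆⁆ w)
    (h5 : ∀ w, Commute ⁅⁅x, y⁆, z⁆ w) : ⁅x, ⁅y, z⁆⁆ = ⁅⁅x, y⁆, z⁆ * ⁅y, ⁅x, z⁆⁆ := by
  have e0 : ⁅x, ⁅y, z⁆⁆ = ⁅⁅x, y⁆ * y, ⁅x, z⁆ * z⁆ * ⁅y, z⁆⁻¹ := by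
    simp [commutatorElement_def, mul_assoc]
  generalize ⁅x, y⁆ = u at *
  generalize ⁅x, z⁆ = v at *
  have e1 : ⁅u * y, v * z⁆ = u * ⁅y, v⁆ * (v * ⁅y, z⁆ * (u⁻¹ * ⁅u, z⁆) * v⁻¹) := by
    simp [commutatorElement_def, mul_assoc]
  rw [e0, e1]
  generalize ⁅y, z⁆ = a at *
  have h4' := (h4 u).eq
  have h5' := (h5 v⁻¹).eq
  generalize ⁅y, v⁆ = c at *
  generalize ⁅u, z⁆ = d at *
  have h6 : v * a * (u⁻¹ * d) * v⁻¹ = u⁻¹ * a * d := by
    calc v * a * (u⁻¹ * d) * v⁻¹ = v * a * u⁻¹ * (d * v⁻¹) := by group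
      _ = v * (a * u⁻¹) * (v⁻¹ * d) := by rw [h5', mul_assoc v]
      _ = v * (u⁻¹ * a) * (v⁻¹ * d) := by rw [(h3.inv_left).eq]
      _ = (v * u⁻¹) * (a * v⁻¹) * d := by group
      _ = (u⁻¹ * v) * (v⁻¹ * a) * d := by rw [(h1.symm.inv_right).eq, (h2.inv_left).eq]
      _ = u⁻¹ * a * d := by group
  rw [h6]
  calc u * c * (u⁻¹ * a * d) * a⁻¹ = (u * c) * u⁻¹ * (a * d) * a⁻¹ := by group
    _ = (c * u) * u⁻¹ * (d * a) * a⁻¹ := by rw [← h4', ← (h5 a).eq]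
    _ = c * d := by group
    _ = d * c := by rw [(h4 d).eq]

theorem hm_zero (g : G) : S.hm 0 g = 0 := S.hm_succ (S.mem_one g)

theorem jac_hm {i j k : ℕ} {x y z : G} (hx : x ∈ S.Γ i) (hy : y ∈ S.Γ j) (hz : z ∈ S.Γ k) :
    S.brk (S.hm i x) (S.brk (S.hm j y) (S.hm k z)) =
      S.brk (S.brk (S.hm i x) (S.hm j y)) (S.hm k z) +
      S.brk (S.hm j y) (S.brk (S.hm i x) (S.hm k z)) := by
  rcases Nat.eq_zero_or_pos i with rfl | hi
  · simp [hm_zero]
  rcases Nat.eq_zero_or_pos j with rfl | hj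
  · simp [hm_zero]
  rcases Nat.eq_zero_or_pos k with rfl | hk
  · simp [hm_zero]
  have cyz := S.comm _ _ _ hy _ hz
  have cxy := S.comm _ _ _ hx _ hy
  have cxz := S.comm _ _ _ hx _ hz
  have m1 : ⁅x, ⁅y, z⁆⁆ ∈ S.Γ (i + j + k) := by
    have := S.comm _ _ _ hx _ cyz; rwa [← add_assoc] at this
  have m2 : ⁅⁅x, y⁆, z⁆ ∈ S.Γ (i + j + k) := S.comm _ _ _ cxy _ hz
  have m3 : ⁅y, ⁅x, z⁆⁆ ∈ S.Γ (i + j + k) := by
    have := S.comm _ _ _ hy _ cxz; rwa [show j + (i + k) = i + j + k by ring] at this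
  rw [S.brk_hm hy hz, S.brk_hm hx cyz, S.brk_hm hx hy, S.brk_hm cxy hz, S.brk_hm hx hz,
    S.brk_hm hy cxz, S.hm_congr (show i + (j + k) = i + j + k by ring),
    S.hm_congr (show j + (i + k) = i + j + k by ring), ← S.hm_mul m2 m3]
  refine S.hm_eq_of_mk m1 ((S.Γ _).mul_mem m2 m3) ?_
  have hcom : ∀ a b : G, ⁅a, b⁆ ∈ S.Γ (i + j + k + 1) →
      Commute (QuotientGroup.mk' (S.Γ (i + j + k + 1)) a) (QuotientGroup.mk' (S.Γ (i + j + k + 1)) b) := by
    intro a b h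
    rw [← commutatorElement_eq_one_iff_commute, ← map_commutatorElement, QuotientGroup.mk'_apply,
      QuotientGroup.eq_one_iff]
    exact h
  have hcen : ∀ a ∈ S.Γ (i + j + k), ∀ w,
      Commute (QuotientGroup.mk' (S.Γ (i + j + k + 1)) a) w := by
    intro a ha w
    obtain ⟨w, rfl⟩ := QuotientGroup.mk'_surjective (S.Γ (i + j + k + 1)) w
    exact S.central _ ha w
  simp only [map_mul, map_commutatorElement]
  apply jacobi_group
  · have := hcom ⁅x, y⁆ ⁅x, z⁆ (S.antitone (by omega) (S.comm _ _ _ cxy _ cxz))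
    simpa only [map_commutatorElement] using this
  · have := hcom ⁅x, z⁆ ⁅y, z⁆ (S.antitone (by omega) (S.comm _ _ _ cxz _ cyz))
    simpa only [map_commutatorElement] using this
  · have := hcom ⁅x, y⁆ ⁅y, z⁆ (S.antitone (by omega) (S.comm _ _ _ cxy _ cyz))
    simpa only [map_commutatorElement] using this
  · intro w
    simpa only [map_commutatorElement] using hcen _ m3 w
  · intro w
    simpa only [map_commutatorElement] using hcen _ m2 w

theorem brk_leibniz (x y z : S.Tot) :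
    S.brk x (S.brk y z) = S.brk (S.brk x y) z + S.brk y (S.brk x z) := by
  refine S.Tot_ind (p := fun x => S.brk x (S.brk y z) = S.brk (S.brk x y) z + S.brk y (S.brk x z))
    (by simp) ?_ ?_ x
  · intro i g hg
    refine S.Tot_ind (p := fun y => S.brk (S.hm i g) (S.brk y z) =
      S.brk (S.brk (S.hm i g) y) z + S.brk y (S.brk (S.hm i g) z)) (by simp) ?_ ?_ y
    · intro j h hh
      refine S.Tot_ind (p := fun z => S.brk (S.hm i g) (S.brk (S.hm j h) z) =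
        S.brk (S.brk (S.hm i g) (S.hm j h)) z + S.brk (S.hm j h) (S.brk (S.hm i g) z))
        (by simp) ?_ ?_ z
      · intro k l hl
        exact S.jac_hm hg hh hl
      · intro a b ha hb
        simp only [map_add, ha, hb]
        abel
    · intro a b ha hb
      simp only [map_add, AddMonoidHom.add_apply, ha, hb]
      abel
  · intro a b ha hb
    simp only [map_add, AddMonoidHom.add_apply, ha, hb]
    abel

noncomputable instance : LieRing S.Tot where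
  bracket x y := S.brk x y
  add_lie x y z := by change S.brk (x + y) z = S.brk x z + S.brk y z; simp
  lie_add x y z := by change S.brk x (y + z) = S.brk x y + S.brk x z; simp
  lie_self x := S.brk_self x
  leibniz_lie x y z := S.brk_leibniz x y z

theorem lie_hm {i j : ℕ} {x y : G} (hx : x ∈ S.Γ i) (hy : y ∈ S.Γ j) :
    ⁅S.hm i x, S.hm j y⁆ = S.hm (i + j) ⁅x, y⁆ := S.brk_hm hx hy

end NSer
end Pool.Agent.Helper52.Inv
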