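import Pool.Agent.Helper52.Inv.Comp
set_option autoImplicit false
open Matrix

namespace Pool.Agent.Helper52.Inv

namespace Hat

section
variable {A : Type*} [CommRing A]

/-- conjugation by `diag(1,-1)` -/
def cj (M : Matrix (Fin 2) (Fin 2) A) : Matrix (Fin 2) (Fin 2) A :=
  !![M 0 0, -M 0 1; -M 1 0, M 1 1]

theorem cj_mul (M N : Matrix (Fin 2) (Fin 2) A) : cj (M * N) = cj M * cj N := by
  ext i j
  fin_cases i <;> fin_cases j <;> simp [cj, Matrix.mul_apply, Fin.sum_univ_two] <;> ring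

theorem cj_det (M : Matrix (Fin 2) (Fin 2) A) : (cj M).det = M.det := by
  rw [Matrix.det_fin_two, Matrix.det_fin_two]; simp [cj]

theorem cj_cj (M : Matrix (Fin 2) (Fin 2) A) : cj (cj M) = M := by
  ext i j; fin_cases i <;> fin_cases j <;> simp [cj]

/-- the involution of `SL_2` -/
def ph : Matrix.SpecialLinearGroup (Fin 2) A →* Matrix.SpecialLinearGroup (Fin 2) A :=
  MonoidHom.mk' (fun g => ⟨cj g.1, by rw [cj_det]; exact g.2⟩) (fun g h => by
    apply Subtype.ext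
    exact cj_mul g.1 h.1)

theorem ph_val (g : Matrix.SpecialLinearGroup (Fin 2) A) : (ph g).1 = cj g.1 := rfl

theorem ph_ph (g : Matrix.SpecialLinearGroup (Fin 2) A) : ph (ph g) = g := by
  apply Subtype.ext
  exact cj_cj g.1

theorem ph_comm (h2 : ∀ x : A, x + x = 0 → x = 0) (a b : Matrix.SpecialLinearGroup (Fin 2) A)
    (ha : ph a = a) (hb : ph b = b) : a * b = b * a := by
  have key : ∀ g : Matrix.SpecialLinearGroup (Fin 2) A, ph g = g → g.1 0 1 = 0 ∧ g.1 1 0 = 0 := by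
    intro g hg
    have h1 := congrArg (fun x : Matrix.SpecialLinearGroup (Fin 2) A => x.1 0 1) hg
    have h3 := congrArg (fun x : Matrix.SpecialLinearGroup (Fin 2) A => x.1 1 0) hg
    have h1' : -g.1 0 1 = g.1 0 1 := h1
    have h3' : -g.1 1 0 = g.1 1 0 := h3
    exact ⟨h2 _ (by nth_rewrite 1 [← h1']; exact neg_add_cancel _),
      h2 _ (by nth_rewrite 1 [← h3']; exact neg_add_cancel _)⟩
  obtain ⟨a1, a2⟩ := key a ha
  obtain ⟨b1, b2⟩ := key b hb
  apply Subtype.ext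
  change a.1 * b.1 = b.1 * a.1
  ext i j
  rw [Matrix.mul_apply, Matrix.mul_apply, Fin.sum_univ_two, Fin.sum_univ_two]
  fin_cases i <;> fin_cases j
  · change a.1 0 0 * b.1 0 0 + a.1 0 1 * b.1 1 0 = b.1 0 0 * a.1 0 0 + b.1 0 1 * a.1 1 0
    rw [a1, b1]; ring
  · change a.1 0 0 * b.1 0 1 + a.1 0 1 * b.1 1 1 = b.1 0 0 * a.1 0 1 + b.1 0 1 * a.1 1 1
    rw [a1, b1]; ring
  · change a.1 1 0 * b.1 0 0 + a.1 1 1 * b.1 1 0 = b.1 1 0 * a.1 0 0 + b.1 1 1 * a.1 1 0
    rw [a2, b2]; ring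
  · change a.1 1 0 * b.1 0 1 + a.1 1 1 * b.1 1 1 = b.1 1 0 * a.1 0 1 + b.1 1 1 * a.1 1 1
    rw [a2, b2]; ring

/-- diagonal elements -/
def ch (u : Aˣ) : Matrix.SpecialLinearGroup (Fin 2) A :=
  ⟨!![(u : A), 0; 0, ((u⁻¹ : Aˣ) : A)], by rw [Matrix.det_fin_two]; simp⟩

theorem ph_ch (u : Aˣ) : ph (ch u) = ch u := by
  apply Subtype.ext
  rw [ph_val]
  ext i j; fin_cases i <;> fin_cases j <;> simp [cj, ch]

/-- upper unitriangular elements -/
def up (a : A) : Matrix.SpecialLinearGroup (Fin 2) A :=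
  ⟨!![1, a; 0, 1], by rw [Matrix.det_fin_two]; simp⟩
/-- lower unitriangular elements -/
def lo (a : A) : Matrix.SpecialLinearGroup (Fin 2) A :=
  ⟨!![1, 0; a, 1], by rw [Matrix.det_fin_two]; simp⟩

theorem up_mul (a b : A) : up a * up b = up (a + b) := by
  apply Subtype.ext
  change !![1, a; 0, 1] * !![1, b; 0, 1] = !![1, a + b; 0, 1]
  ext i j; fin_cases i <;> fin_cases j <;> simp [add_comm]

theorem lo_mul (a b : A) : lo a * lo b = lo (a + b) := by
  apply Subtype.ext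
  change !![1, 0; a, 1] * !![1, 0; b, 1] = !![1, 0; a + b, 1]
  ext i j; fin_cases i <;> fin_cases j <;> simp

theorem up_zero : up (0 : A) = 1 := by
  apply Subtype.ext
  change !![1, 0; 0, 1] = (1 : Matrix (Fin 2) (Fin 2) A)
  rw [Matrix.one_fin_two]

theorem lo_zero : lo (0 : A) = 1 := by
  apply Subtype.ext
  change !![1, 0; 0, 1] = (1 : Matrix (Fin 2) (Fin 2) A)
  rw [Matrix.one_fin_two]

theorem ph_up (a : A) : ph (up a) = (up a)⁻¹ := by
  have h1 : ph (up a) = up (-a) := by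
    apply Subtype.ext
    rw [ph_val]
    ext i j; fin_cases i <;> fin_cases j <;> simp [cj, up]
  rw [h1, eq_inv_iff_mul_eq_one, up_mul, neg_add_cancel, up_zero]

theorem ph_lo (a : A) : ph (lo a) = (lo a)⁻¹ := by
  have h1 : ph (lo a) = lo (-a) := by
    apply Subtype.ext
    rw [ph_val]
    ext i j; fin_cases i <;> fin_cases j <;> simp [cj, lo]
  rw [h1, eq_inv_iff_mul_eq_one, lo_mul, neg_add_cancel, lo_zero]

/-- the inverted elements -/
def dh (a b : A) : Matrix.SpecialLinearGroup (Fin 2) A := up a * lo (2 * b) * up a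

theorem ph_dh (a b : A) : ph (dh a b) = (dh a b)⁻¹ := by
  rw [dh, map_mul, map_mul, ph_up, ph_lo]; group

theorem dh_val (a b : A) : (dh a b).1 = !![1 + 2 * a * b, 2 * a + 2 * a * a * b; 2 * b, 1 + 2 * a * b] := by
  change !![1, a; 0, 1] * !![1, 0; 2 * b, 1] * !![1, a; 0, 1] = _
  ext i j; fin_cases i <;> fin_cases j <;> simp [Matrix.mul_apply, Fin.sum_univ_two] <;> ring

end

open TP GrHom _root_.Pool.Agent.Helper52.Inv.Comp

variable {B : Type*} [CommRing B] {c : ℕ}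

theorem mem_tI1 {a : TP B c} : a ∈ (tI : Ideal (TP B c)) ^ 1 ↔ a ∈ tI := by rw [pow_one]

theorem H1_two {a b : TP B c} (ha : a ∈ (tI : Ideal (TP B c))) (hb : b ∈ (tI : Ideal (TP B c))) :
    H 1 (a * b) = 0 := by
  apply H_of_mem (m := 2) (by omega)
  rw [pow_two]; exact Ideal.mul_mem_mul ha hb

/-- the unit `1 + t b` -/
noncomputable def un (b : TP B c) : (TP B c)ˣ := (isUnit_one_add b).unit

theorem un_val (b : TP B c) : ((un b : (TP B c)ˣ) : TP B c) = 1 + t * b := rfl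

theorem un_inv (b : TP B c) : (((un b)⁻¹ : (TP B c)ˣ) : TP B c) =
    1 - t * b + t * b * (t * b * (((un b)⁻¹ : (TP B c)ˣ) : TP B c)) := by
  have h : (1 + t * b) * (((un b)⁻¹ : (TP B c)ˣ) : TP B c) = 1 := (un b).mul_inv
  set w := (((un b)⁻¹ : (TP B c)ˣ) : TP B c) with hw
  linear_combination (1 - t * b) * h

theorem ch_mem (b : TP B c) : ch (un b) ∈ Cg (tI : Ideal (TP B c)) := by
  rw [mem_Cg]
  have ht := t_mem b
  intro i j
  fin_cases i <;> fin_cases j
  · change (1 + t * b) - 1 ∈ _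
    rw [add_sub_cancel_left]; exact ht
  · change (0 : TP B c) - 0 ∈ _
    simp
  · change (0 : TP B c) - 0 ∈ _
    simp
  · change (((un b)⁻¹ : (TP B c)ˣ) : TP B c) - 1 ∈ _
    rw [un_inv]
    have : (1 : TP B c) - t * b + t * b * (t * b * (((un b)⁻¹ : (TP B c)ˣ) : TP B c)) - 1 =
      t * b * (t * b * (((un b)⁻¹ : (TP B c)ˣ) : TP B c) - 1) := by ring
    rw [this]
    exact Ideal.mul_mem_right _ _ ht

theorem HM_ch (b : B) : HM 1 ((ch (un (ι b : TP B c))).1 - 1) = Dg (t * ι b) := by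
  have h1 : H 1 (t * ι b : TP B c) = t * ι b := by
    have := H_t (c := c) 1 b
    rwa [pow_one, mul_comm] at this
  ext i j
  rw [HM_apply]
  fin_cases i <;> fin_cases j
  · change H 1 ((1 + t * ι b : TP B c) - 1) = t * ι b
    rw [add_sub_cancel_left, h1]
  · change H 1 ((0 : TP B c) - 0) = 0
    rw [sub_zero, H_zero]
  · change H 1 ((0 : TP B c) - 0) = 0
    rw [sub_zero, H_zero]
  · change H 1 ((((un (ι b : TP B c))⁻¹ : (TP B c)ˣ) : TP B c) - 1) = -(t * ι b)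
    rw [un_inv]
    have : (1 : TP B c) - t * ι b + t * ι b * (t * ι b * (((un (ι b : TP B c))⁻¹ : (TP B c)ˣ) : TP B c)) - 1 =
      t * ι b * (t * ι b * (((un (ι b : TP B c))⁻¹ : (TP B c)ˣ) : TP B c)) + (-(t * ι b)) := by ring
    rw [this, H_add, H1_two (t_mem _) (Ideal.mul_mem_right _ _ (t_mem _)), zero_add, H_neg, h1]

theorem dh_mem (a b : TP B c) : dh (t * a) (t * b) ∈ Cg (tI : Ideal (TP B c)) := by
  rw [mem_Cg, dh_val]
  have ha := t_mem a
  have hb := t_mem b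
  intro i j
  fin_cases i <;> fin_cases j
  · change (1 + 2 * (t * a) * (t * b)) - 1 ∈ _
    rw [add_sub_cancel_left]; exact Ideal.mul_mem_left _ _ hb
  · change (2 * (t * a) + 2 * (t * a) * (t * a) * (t * b)) - 0 ∈ _
    rw [sub_zero]
    exact Ideal.add_mem _ (Ideal.mul_mem_left _ _ ha) (Ideal.mul_mem_left _ _ hb)
  · change (2 * (t * b)) - 0 ∈ _
    rw [sub_zero]
    exact Ideal.mul_mem_left _ _ hb
  · change (1 + 2 * (t * a) * (t * b)) - 1 ∈ _
    rw [add_sub_cancel_left]; exact Ideal.mul_mem_left _ _ hb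

theorem HM_dh (a b : B) : HM 1 ((dh (t * ι a) (t * ι b) : Matrix.SpecialLinearGroup (Fin 2) (TP B c)).1 - 1) =
    Ag (2 * (t * ι a)) (2 * (t * ι b)) := by
  have h1 : ∀ b : B, H 1 (t * ι b : TP B c) = t * ι b := by
    intro b
    have := H_t (c := c) 1 b
    rwa [pow_one, mul_comm] at this
  have ha := t_mem (ι a : TP B c)
  have hb := t_mem (ι b : TP B c)
  have h2 : ∀ b : B, H 1 (2 * (t * ι b) : TP B c) = 2 * (t * ι b) := by
    intro b
    rw [two_mul, H_add, h1]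
  rw [dh_val]
  ext i j
  rw [HM_apply]
  fin_cases i <;> fin_cases j
  · change H 1 ((1 + 2 * (t * ι a) * (t * ι b) : TP B c) - 1) = 0
    rw [add_sub_cancel_left, H1_two (Ideal.mul_mem_left _ _ ha) hb]
  · change H 1 ((2 * (t * ι a) + 2 * (t * ι a) * (t * ι a) * (t * ι b) : TP B c) - 0) = 2 * (t * ι a)
    rw [sub_zero, H_add, H1_two (Ideal.mul_mem_left _ _ ha) hb, add_zero, h2]
  · change H 1 ((2 * (t * ι b) : TP B c) - 0) = 2 * (t * ι b)
    rw [sub_zero, h2]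
  · change H 1 ((1 + 2 * (t * ι a) * (t * ι b) : TP B c) - 1) = 0
    rw [add_sub_cancel_left, H1_two (Ideal.mul_mem_left _ _ ha) hb]

end Hat
end Pool.Agent.Helper52.Inv
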