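import Pool.Agent.Helper52.Inv.Gen
import Pool.Agent.Helper52.Inv.Hat
set_option autoImplicit false
open scoped commutatorElement

namespace Pool.Agent.Helper52.Inv
open ZG

section
variable {G : Type*} [Group G]

/-- homogeneous elements of degree `n` -/
def Hom (n : ℕ) (x : (lcN G).Tot) : Prop := ∃ g ∈ (lcN G).Γ n, (lcN G).hm n g = x

theorem Hom.zero (n : ℕ) : Hom n (0 : (lcN G).Tot) := ⟨1, Subgroup.one_mem _, (lcN G).hm_one n⟩

theorem Hom.add {n : ℕ} {x y : (lcN G).Tot} (hx : Hom n x) (hy : Hom n y) : Hom n (x + y) := by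
  obtain ⟨g, hg, rfl⟩ := hx
  obtain ⟨h, hh, rfl⟩ := hy
  exact ⟨g * h, Subgroup.mul_mem _ hg hh, (lcN G).hm_mul hg hh⟩

theorem Hom.neg {n : ℕ} {x : (lcN G).Tot} (hx : Hom n x) : Hom n (-x) := by
  obtain ⟨g, hg, rfl⟩ := hx
  exact ⟨g⁻¹, Subgroup.inv_mem _ hg, (lcN G).hm_inv hg⟩

/-- homogeneous elements form a subgroup -/
def HomS (n : ℕ) : AddSubgroup (lcN G).Tot where
  carrier := {x | Hom n x}
  zero_mem' := Hom.zero n
  add_mem' := Hom.add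
  neg_mem' := Hom.neg

theorem Hom.lie {m n : ℕ} {x y : (lcN G).Tot} (hx : Hom m x) (hy : Hom n y) :
    Hom (m + n) ⁅x, y⁆ := by
  obtain ⟨g, hg, rfl⟩ := hx
  obtain ⟨h, hh, rfl⟩ := hy
  exact ⟨⁅g, h⁆, (lcN G).comm _ _ _ hg _ hh, ((lcN G).lie_hm hg hh).symm⟩

theorem Hom.cast {m n : ℕ} (h : m = n) {x : (lcN G).Tot} (hx : Hom m x) : Hom n x := h ▸ hx

variable (Z : ZG (lcN G).Tot)

theorem Hom_T {m n : ℕ} {h : Z.E} {u : Z.O} (hh : Hom m (h : (lcN G).Tot))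
    (hu : Hom n (u : (lcN G).Tot)) : Hom (m + n) ((Z.T h u : Z.O) : (lcN G).Tot) := hh.lie hu

theorem Hom_Tpow {n : ℕ} (k : ℕ) {h : Z.E} {u : Z.O} (hh : Hom 1 (h : (lcN G).Tot))
    (hu : Hom n (u : (lcN G).Tot)) : Hom (k + n) (((Z.T h ^ k) u : Z.O) : (lcN G).Tot) := by
  induction k with
  | zero => exact Hom.cast (by omega) hu
  | succ k ih =>
    rw [pow_succ']
    exact Hom.cast (by omega) (Hom_T Z hh ih)

theorem Hom_Q {n : ℕ} {u v : Z.O} (hu : Hom 1 (u : (lcN G).Tot)) (hv : Hom 1 (v : (lcN G).Tot))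
    {h : Z.E} (hh : Hom n (h : (lcN G).Tot)) : Hom (n + 2) ((Z.Q u v h : Z.E) : (lcN G).Tot) :=
  Hom.cast (by omega) (hu.lie (hh.lie hv))

theorem Hom_Qpow {n : ℕ} (k : ℕ) {u v : Z.O} (hu : Hom 1 (u : (lcN G).Tot))
    (hv : Hom 1 (v : (lcN G).Tot)) {h : Z.E} (hh : Hom n (h : (lcN G).Tot)) :
    Hom (n + 2 * k) (((Z.Q u v ^ k) h : Z.E) : (lcN G).Tot) := by
  induction k with
  | zero => exact hh
  | succ k ih =>
    rw [pow_succ']
    exact Hom.cast (by omega) (Hom_Q Z hu hv ih)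

theorem Hom_qp {n : ℕ} (z : Fin 2 → Z.O) (hz : ∀ i, Hom 1 (z i : (lcN G).Tot)) (g : ℕ × ℕ × ℕ)
    {h : Z.E} (hh : Hom n (h : (lcN G).Tot)) :
    Hom (n + 2 * g.1 + 2 * g.2.1 + 2 * g.2.2) ((Z.qp z g h : Z.E) : (lcN G).Tot) :=
  Hom.cast (by omega) (Hom_Qpow Z g.1 (hz 0) (hz 0) (Hom_Qpow Z g.2.1 (hz 0) (hz 1)
    (Hom_Qpow Z g.2.2 (hz 1) (hz 1) hh)))

theorem Hom_N (y : Fin 2 → Z.E) (z : Fin 2 → Z.O) (hy : ∀ i, Hom 1 (y i : (lcN G).Tot))
    (hz : ∀ i, Hom 1 (z i : (lcN G).Tot)) (v : VI) :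
    Hom (dg v) ((Z.N y z v : Z.O) : (lcN G).Tot) := by
  rcases v with i | ⟨m, n, g, i⟩ | ⟨n, g, i⟩ | ⟨g, i⟩
  · exact hz i
  · exact Hom.cast (by simp only [dg]; omega) (Hom_Tpow Z m (hy 0) (Hom_Tpow Z n (hy 1)
      (Hom_T Z (Hom_qp Z z hz g (hy 0)) (hz i))))
  · exact Hom.cast (by simp only [dg]; omega) (Hom_Tpow Z n (hy 1)
      (Hom_T Z (Hom_qp Z z hz g (hy 1)) (hz i)))
  · exact Hom.cast (by simp only [dg]; omega)
      (Hom_T Z (Hom_qp Z z hz g ((hz 0).lie (hz 1) : Hom (1 + 1) ((Z.D (z 0) (z 1) : Z.E) : (lcN G).Tot))) (hz i))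

/-- projection to degree `j` -/
noncomputable def pr (j : ℕ) : (lcN G).Tot →+ (lcN G).Tot :=
  (lcN G).totLift (fun n g => if n = j then (lcN G).hm n g else 0)
    (fun n g hg h hh => by
      split_ifs
      · exact (lcN G).hm_mul hg hh
      · rw [add_zero])
    (fun n g hg => by
      split_ifs
      · exact (lcN G).hm_succ hg
      · rfl)

theorem pr_hm (j : ℕ) {n : ℕ} {g : G} (hg : g ∈ (lcN G).Γ n) :
    pr j ((lcN G).hm n g) = if n = j then (lcN G).hm n g else 0 :=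
  (lcN G).totLift_hm _ _ _ hg

theorem pr_Hom (j : ℕ) {n : ℕ} {x : (lcN G).Tot} (hx : Hom n x) :
    pr j x = if n = j then x else 0 := by
  obtain ⟨g, hg, rfl⟩ := hx
  exact pr_hm j hg

end

namespace ZG
variable {L : Type*} [LieRing L] (G : ZG L) (y : Fin 2 → G.E) (z : Fin 2 → G.O)

theorem VS_exists {x : G.O} (hx : x ∈ G.VS y z) :
    ∃ c : VI →₀ ℤ, x = c.sum (fun v n => n • G.N y z v) := by
  induction hx using AddSubgroup.closure_induction with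
  | mem x hx =>
    obtain ⟨v, rfl⟩ := hx
    exact ⟨Finsupp.single v 1, by rw [Finsupp.sum_single_index (by simp)]; simp⟩
  | zero => exact ⟨0, by simp⟩
  | add a b _ _ h1 h2 =>
    obtain ⟨c, rfl⟩ := h1
    obtain ⟨d, rfl⟩ := h2
    exact ⟨c + d, by rw [Finsupp.sum_add_index' (by simp) (by intros; rw [add_smul])]⟩
  | neg a _ h =>
    obtain ⟨c, rfl⟩ := h
    refine ⟨-c, ?_⟩
    rw [Finsupp.sum_neg_index (by simp)]
    simp only [neg_smul, Finsupp.sum, Finset.sum_neg_distrib]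

end ZG

end Pool.Agent.Helper52.Inv
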