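import Pool.Agent.Helper52.Inv.Defs
import Pool.Agent.Helper52.Inv.GrLie
set_option autoImplicit false
open scoped commutatorElement

namespace Pool.Agent.Helper52.Inv

variable {G : Type*} [Group G]

theorem LC_normal (n : ℕ) : (LC (⊤ : Subgroup G) n).Normal := by
  induction n with
  | zero => exact inferInstanceAs (Subgroup.Normal ⊤)
  | succ n ih => 
    have := ih
    exact Subgroup.commutator_normal _ _

theorem LC_anti (n : ℕ) : LC (⊤ : Subgroup G) (n + 1) ≤ LC (⊤ : Subgroup G) n := by
  have := LC_normal (G := G) n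
  exact Subgroup.commutator_le_left _ _

theorem LC_map {H : Type*} [Group H] (f : G →* H) (S : Subgroup G) (n : ℕ) :
    (LC S n).map f = LC (S.map f) n := by
  induction n with
  | zero => rfl
  | succ n ih => simp only [LC]; rw [Subgroup.map_commutator, ih]

theorem LC_mono {S T : Subgroup G} (h : S ≤ T) (n : ℕ) : LC S n ≤ LC T n := by
  induction n with
  | zero => exact h
  | succ n ih => exact Subgroup.commutator_mono ih h

/-- three subgroups lemma for inclusion in a normal subgroup -/
theorem three (A B C N : Subgroup G) [hN : N.Normal] (h1 : ⁅⁅B, C⁆, A⁆ ≤ N) (h2 : ⁅⁅C, A⁆, B⁆ ≤ N) :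
    ⁅⁅A, B⁆, C⁆ ≤ N := by
  have key : ∀ X : Subgroup G, X.map (QuotientGroup.mk' N) = ⊥ ↔ X ≤ N := by
    intro X
    rw [Subgroup.map_eq_bot_iff, QuotientGroup.ker_mk']
  rw [← key] at *
  simp only [Subgroup.map_commutator] at *
  exact Subgroup.commutator_commutator_eq_bot_of_rotate h1 h2

theorem LC_comm (i j : ℕ) : ⁅LC (⊤ : Subgroup G) i, LC (⊤ : Subgroup G) j⁆ ≤ LC ⊤ (i + j + 1) := by
  induction j generalizing i with
  | zero => exact le_rfl
  | succ j ih =>
    have hn := LC_normal (G := G) (i + (j + 1) + 1)
    have h := three (LC (⊤ : Subgroup G) j) ⊤ (LC ⊤ i) (LC ⊤ (i + (j + 1) + 1)) ?_ ?_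
    · rw [Subgroup.commutator_comm]; exact h
    · rw [Subgroup.commutator_comm ⊤]
      have := ih (i + 1)
      rwa [show i + 1 + j + 1 = i + (j + 1) + 1 by ring] at this
    · have := ih i
      exact Subgroup.commutator_mono this le_rfl

/-- the lower central series as an N-series: `Γ 0 = Γ 1 = ⊤`. -/
def lcN (G : Type*) [Group G] : NSer G where
  Γ n := LC ⊤ (n - 1)
  normal n := LC_normal _
  anti n := by
    cases n with
    | zero => exact le_rfl
    | succ n => exact LC_anti n
  comm i j x hx y hy := by
    cases i with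
    | zero =>
      rw [Nat.zero_add]
      have := LC_normal (G := G) (j - 1)
      exact Subgroup.commutator_le_right ⊤ _ (Subgroup.commutator_mem_commutator (Subgroup.mem_top x) hy)
    | succ i =>
      cases j with
      | zero => 
        have := LC_normal (G := G) (i + 1 - 1)
        exact Subgroup.commutator_le_left _ ⊤ (Subgroup.commutator_mem_commutator hx (Subgroup.mem_top y))
      | succ j =>
        have := LC_comm i j (Subgroup.commutator_mem_commutator hx hy)
        rwa [show i + 1 + (j + 1) - 1 = i + j + 1 by omega]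
  one := rfl

theorem lcN_succ (n : ℕ) : (lcN G).Γ (n + 1) = LC ⊤ n := rfl

end Pool.Agent.Helper52.Inv
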