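import Pool.Agent.Helper52.Inv.Approx
import Pool.Agent.Helper51.InvREL
import Pool.Agent.Helper1.InvUT
import Pool.Agent.Helper89.InvFROZEN
set_option autoImplicit false
open scoped commutatorElement

namespace Pool.Agent.Helper52.Inv
open ZG TP GrHom Hat

/-- the statement of Pink's theorem used here -/
def PinkStatement : Prop :=
  ∀ {A : Type} [CommRing A] (r : ℕ) (_ : (2 * r : A) = 1) (I : Ideal A) (K : ℕ)
    (_ : I ^ K = ⊥) (g h : Matrix.SpecialLinearGroup (Fin 2) A)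
    (_ : ∀ i j, (g.1 - 1) i j ∈ I) (_ : ∀ i j, (h.1 - 1) i j ∈ I)
    (m : ℕ) (S : List (List Bool)) (_ : ∀ l ∈ S, l.length = m) (α : List Bool → ℤ)
    (_ : ws (Th r g.1) (Th r h.1) S α = 0),
    wd g h S α ∈ LC (Subgroup.closure {g, h}) (3 * m + 4)

section map
variable {G H : Type*} [Group G] [Group H] (f : G →* H)

theorem map_cA (x y : G) : f (cA x y) = cA (f x) (f y) := by
  simp only [cA, map_commutatorElement]

theorem map_cB (x y : G) (b : Bool) : f (cB x y b) = cB (f x) (f y) b := by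
  cases b <;> simp [cB, map_commutatorElement]

theorem map_cC (x y : G) (l : List Bool) : f (cC x y l) = cC (f x) (f y) l := by
  induction l with
  | nil => exact map_cA f x y
  | cons b l ih => simp only [cC, map_commutatorElement, ih, map_cB]

theorem map_wd (x y : G) (S : List (List Bool)) (α : List Bool → ℤ) :
    f (wd x y S α) = wd (f x) (f y) S α := by
  rw [wd, wd, map_list_prod, List.map_map]
  congr 1
  refine List.map_congr_left fun l _ => ?_
  simp only [Function.comp, map_zpow, map_cC]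

end map

section
variable {p : ℕ} {P : Type} [Group P]

/-- the ring -/
abbrev AA (p e n : ℕ) := TP (BR (ZMod (p ^ e))) n

theorem p_pow_zero (p e n : ℕ) : (p : AA p e n) ^ e = 0 := by
  have h1 : ((p ^ e : ℕ) : ZMod (p ^ e)) = 0 := ZMod.natCast_self _
  have h2 : ((p ^ e : ℕ) : AA p e n) = (ι (algebraMap (ZMod (p ^ e)) (BR (ZMod (p ^ e)))
      ((p ^ e : ℕ) : ZMod (p ^ e)))) := by
    rw [map_natCast, map_natCast]
  rw [h1, map_zero, map_zero] at h2
  rw [← h2]; push_cast; rfl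

/-- a half -/
theorem exists_half (p e n : ℕ) (hp : p.Prime) (h2 : 2 < p) : ∃ r : ℕ, (2 * r : AA p e n) = 1 := by
  have hodd : Odd (p ^ e) := (hp.odd_of_ne_two (by omega)).pow
  obtain ⟨k, hk⟩ := hodd
  refine ⟨k + 1, ?_⟩
  have h := p_pow_zero p e n
  have h3 : ((2 * k + 1 : ℕ) : AA p e n) = 0 := by rw [← hk]; push_cast; exact h
  push_cast at h3 ⊢
  linear_combination h3

variable (e n : ℕ) (φ : P ≃* P)

/-- the generators in the product -/
noncomputable def cT (cP : Fin 2 → P) : Fin 2 → P × Matrix.SpecialLinearGroup (Fin 2) (AA p e n) :=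
  fun i => (cP i, (![ch (un (ι (vy0 _))), ch (un (ι (vy1 _)))] :
    Fin 2 → Matrix.SpecialLinearGroup (Fin 2) (AA p e n)) i)
/-- the generators in the product -/
noncomputable def dT (dP : Fin 2 → P) : Fin 2 → P × Matrix.SpecialLinearGroup (Fin 2) (AA p e n) :=
  fun i => (dP i, (![dh (t * ι 1) (t * ι (vb _)), dh (t * ι (vr _)) (t * ι (vk _ - vr _ * vb _))] :
    Fin 2 → Matrix.SpecialLinearGroup (Fin 2) (AA p e n)) i)

/-- the involution on the product -/
noncomputable def PhT : P × Matrix.SpecialLinearGroup (Fin 2) (AA p e n) →*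
    P × Matrix.SpecialLinearGroup (Fin 2) (AA p e n) :=
  φ.toMonoidHom.prodMap ph

theorem PhT_apply (x : P × Matrix.SpecialLinearGroup (Fin 2) (AA p e n)) :
    PhT e n φ x = (φ x.1, ph x.2) := rfl

theorem PhT_cT (cP : Fin 2 → P) (h : ∀ i, φ (cP i) = cP i) (i : Fin 2) :
    PhT (p := p) e n φ (cT e n cP i) = cT e n cP i := by
  rw [PhT_apply]
  refine Prod.ext (h i) ?_
  fin_cases i
  · exact ph_ch _
  · exact ph_ch _

theorem PhT_dT (dP : Fin 2 → P) (h : ∀ i, φ (dP i) = (dP i)⁻¹) (i : Fin 2) :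
    PhT (p := p) e n φ (dT e n dP i) = (dT e n dP i)⁻¹ := by
  rw [PhT_apply]
  refine Prod.ext (h i) ?_
  fin_cases i
  · exact ph_dh _ _
  · exact ph_dh _ _

/-- the group -/
noncomputable def DD (p : ℕ) (cP dP : Fin 2 → P) :
    Subgroup (P × Matrix.SpecialLinearGroup (Fin 2) (AA p e n)) :=
  Subgroup.closure (Set.range (cT e n cP) ∪ Set.range (dT e n dP))

theorem PhT_mem (cP dP : Fin 2 → P) (hc : ∀ i, φ (cP i) = cP i) (hd : ∀ i, φ (dP i) = (dP i)⁻¹)
    {x : P × Matrix.SpecialLinearGroup (Fin 2) (AA p e n)} (hx : x ∈ DD e n p cP dP) :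
    PhT e n φ x ∈ DD e n p cP dP := by
  have h1 : DD e n p cP dP ≤ (DD e n p cP dP).comap (PhT e n φ) := by
    rw [DD, Subgroup.closure_le]
    rintro _ (⟨i, rfl⟩ | ⟨i, rfl⟩)
    · change PhT e n φ (cT e n cP i) ∈ DD e n p cP dP
      rw [PhT_cT e n φ cP hc]
      exact Subgroup.subset_closure (Or.inl ⟨i, rfl⟩)
    · change PhT e n φ (dT e n dP i) ∈ DD e n p cP dP
      rw [PhT_dT e n φ dP hd]
      exact Subgroup.inv_mem _ (Subgroup.subset_closure (Or.inr ⟨i, rfl⟩))
  exact h1 hx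

theorem snd_mem (cP dP : Fin 2 → P) 
    {x : P × Matrix.SpecialLinearGroup (Fin 2) (AA p e n)} (hx : x ∈ DD e n p cP dP) :
    x.2 ∈ Cg tI := by
  have h1 : DD e n p cP dP ≤ (Cg tI).comap (MonoidHom.snd P _) := by
    rw [DD, Subgroup.closure_le]
    rintro _ (⟨i, rfl⟩ | ⟨i, rfl⟩)
    · fin_cases i
      · exact ch_mem _
      · exact ch_mem _
    · fin_cases i
      · exact dh_mem _ _
      · exact dh_mem _ _
  exact h1 hx

theorem DD_exp (e0 : ℕ) (he : e0 ≤ e) (hexp : ∀ x : P, x ^ (p ^ e0) = 1) (cP dP : Fin 2 → P)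
    {x : P × Matrix.SpecialLinearGroup (Fin 2) (AA p e n)} (hx : x ∈ DD e n p cP dP) :
    x ^ (p ^ (e + n)) = 1 := by
  refine Prod.ext ?_ ?_
  · change x.1 ^ (p ^ (e + n)) = 1
    have : e + n = e0 + (e + n - e0) := by omega
    rw [this, pow_add p, pow_mul, hexp, one_pow]
  · change x.2 ^ (p ^ (e + n)) = 1
    have h1 := pow_mem_Cg p (e + n) (snd_mem e n cP dP hx)
    have h2 : (p : AA p e n) ^ (e + n + 1 - n) = 0 := by
      rw [show e + n + 1 - n = e + 1 by omega, pow_succ, p_pow_zero, zero_mul]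
    rw [h2, Ideal.span_singleton_eq_bot.mpr rfl, Cg_bot, Subgroup.mem_bot] at h1
    exact h1

/-- the structure `Inl` on the group -/
noncomputable def DI (hp : p.Prime) (h2 : 2 < p) (hφ : ∀ x, φ (φ x) = x)
    (hab : ∀ a b : P, φ a = a → φ b = b → a * b = b * a) (e0 : ℕ) (he : e0 ≤ e)
    (hexp : ∀ x : P, x ^ (p ^ e0) = 1) (cP dP : Fin 2 → P) (hc : ∀ i, φ (cP i) = cP i)
    (hd : ∀ i, φ (dP i) = (dP i)⁻¹) : Inl ↥(DD e n p cP dP) where
  φ := ((PhT e n φ).comp (DD e n p cP dP).subtype).codRestrict _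
    (fun x => PhT_mem e n φ cP dP hc hd x.2)
  inv x := by
    apply Subtype.ext
    change PhT e n φ (PhT e n φ x.1) = x.1
    rw [PhT_apply, PhT_apply]
    exact Prod.ext (hφ _) (ph_ph _)
  r := (p ^ (e + n)) / 2
  exp x := by
    have hodd : Odd (p ^ (e + n)) := (hp.odd_of_ne_two (by omega)).pow
    rw [Nat.two_mul_div_two_add_one_of_odd hodd]
    apply Subtype.ext
    exact DD_exp e n e0 he hexp cP dP x.2
  ab a b ha hb := by
    apply Subtype.ext
    have ha' := congrArg Subtype.val ha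
    have hb' := congrArg Subtype.val hb
    have ha1 : (φ a.1.1, ph a.1.2) = a.1 := ha'
    have hb1 : (φ b.1.1, ph b.1.2) = b.1 := hb'
    obtain ⟨r, hr⟩ := exists_half p e n hp h2
    have h2A : ∀ x : AA p e n, x + x = 0 → x = 0 := by
      intro x hx
      have : x = (2 * (r : AA p e n)) * x := by rw [hr, one_mul]
      rw [this]; linear_combination (r : AA p e n) * hx
    refine Prod.ext ?_ ?_
    · exact hab _ _ (congrArg Prod.fst ha1) (congrArg Prod.fst hb1)
    · exact ph_comm h2A _ _ (congrArg Prod.snd ha1) (congrArg Prod.snd hb1)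

/-- the data of `Dat` for the group -/
noncomputable def DX (hp : p.Prime) (h2 : 2 < p) (hφ : ∀ x, φ (φ x) = x)
    (hab : ∀ a b : P, φ a = a → φ b = b → a * b = b * a) (e0 : ℕ) (he : e0 ≤ e)
    (hexp : ∀ x : P, x ^ (p ^ e0) = 1) (cP dP : Fin 2 → P) (hc : ∀ i, φ (cP i) = cP i)
    (hd : ∀ i, φ (dP i) = (dP i)⁻¹) : Dat p e n ↥(DD e n p cP dP) where
  I := DI e n φ hp h2 hφ hab e0 he hexp cP dP hc hd
  c i := ⟨cT e n cP i, Subgroup.subset_closure (Or.inl ⟨i, rfl⟩)⟩
  d i := ⟨dT e n dP i, Subgroup.subset_closure (Or.inr ⟨i, rfl⟩)⟩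
  hc i := Subtype.ext (PhT_cT e n φ cP hc i)
  hd i := Subtype.ext (PhT_dT e n φ dP hd i)
  hgen := by
    have hset : ((Set.range fun i => (⟨cT e n cP i, Subgroup.subset_closure (Or.inl ⟨i, rfl⟩)⟩ :
        ↥(DD e n p cP dP))) ∪ (Set.range fun i => (⟨dT e n dP i,
        Subgroup.subset_closure (Or.inr ⟨i, rfl⟩)⟩ : ↥(DD e n p cP dP)))) =
        ((↑) : ↥(Subgroup.closure (Set.range (cT (p := p) e n cP) ∪ Set.range (dT e n dP))) → _) ⁻¹'
          (Set.range (cT (p := p) e n cP) ∪ Set.range (dT e n dP)) := by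
      apply Set.ext
      intro x
      constructor
      · rintro (⟨i, rfl⟩ | ⟨i, rfl⟩)
        · exact Or.inl ⟨i, rfl⟩
        · exact Or.inr ⟨i, rfl⟩
      · rintro (⟨i, hi⟩ | ⟨i, hi⟩)
        · exact Or.inl ⟨i, Subtype.ext hi⟩
        · exact Or.inr ⟨i, Subtype.ext hi⟩
    rw [hset]
    exact Subgroup.closure_closure_coe_preimage
  f := (MonoidHom.snd P _).comp (DD e n p cP dP).subtype
  fc0 := rfl
  fc1 := rfl
  fd0 := rfl
  fd1 := rfl

end

end Pool.Agent.Helper52.Inv
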