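import Pool.Agent.Helper52.Inv.MainP
set_option autoImplicit false
open scoped commutatorElement

namespace Pool.Agent.Helper52.Inv
open ZG TP GrHom Hat

theorem LC_eq_lcs (G : Type*) [Group G] (n : ℕ) :
    LC (⊤ : Subgroup G) n = (⊤ : Subgroup G).lowerCentralSeries n := by
  induction n with
  | zero => rfl
  | succ n ih => rw [LC, ih]; rfl

theorem exists_LC {p : ℕ} [Fact p.Prime] {P : Type*} [Group P] [Finite P] (hP : IsPGroup p P) :
    ∃ n, LC (⊤ : Subgroup P) n = ⊥ := by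
  have := hP.isNilpotent
  obtain ⟨n, hn⟩ := Subgroup.nilpotent_iff_lowerCentralSeries.mp this
  exact ⟨n, by rw [LC_eq_lcs, hn]⟩

theorem exists_exp {p : ℕ} [Fact p.Prime] {P : Type*} [Group P] [Finite P] (hP : IsPGroup p P) :
    ∃ e0, ∀ x : P, x ^ (p ^ e0) = 1 := by
  obtain ⟨k, hk⟩ := (IsPGroup.iff_card).mp hP
  exact ⟨k, fun x => by rw [← hk]; exact pow_card_eq_one'⟩

theorem Th_trace {A : Type*} [CommRing A] (r : ℕ) (hr : (2 * r : A) = 1)
    (g : Matrix (Fin 2) (Fin 2) A) : (Th r g).trace = 0 := by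
  rw [Th, Matrix.trace_sub, Matrix.trace_smul, Matrix.trace_one, Fintype.card_fin, nsmul_eq_mul,
    smul_eq_mul]
  push_cast
  linear_combination (-g.trace) * hr

theorem main_P (pink : PinkStatement) {p : ℕ} (hp : p.Prime) (h2 : 2 < p) {P : Type} [Group P]
    [Finite P] (hP : IsPGroup p P) (φ : P ≃* P) (hφ : ∀ x, φ (φ x) = x)
    (hab : ∀ a b : P, φ a = a → φ b = b → a * b = b * a) (X Y : P)
    (m : ℕ) (S : List (List Bool)) (hS : ∀ l ∈ S, l.length = m) (α : List Bool → ℤ)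
    (hrel : ∀ (A : Type) [CommRing A] (u v : Matrix (Fin 2) (Fin 2) A), u.trace = 0 →
      v.trace = 0 → ws u v S α = 0) :
    ⁅wd X Y S α, Y⁆ ∈ LC (Subgroup.closure {X, Y}) (3 * m + 5) := by
  have : Fact p.Prime := ⟨hp⟩
  obtain ⟨n, hn⟩ := exists_LC hP
  obtain ⟨e0, hexp⟩ := exists_exp hP
  obtain ⟨e, he⟩ : ∃ e, e = e0 + n * n := ⟨_, rfl⟩
  -- the decomposition in `P`
  let IP : Inl P :=
    { φ := φ.toMonoidHom
      inv := hφ
      r := (p ^ e0) / 2
      exp := fun x => by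
        have hodd : Odd (p ^ e0) := (hp.odd_of_ne_two (by omega)).pow
        rw [Nat.two_mul_div_two_add_one_of_odd hodd]
        exact hexp x
      ab := hab }
  let W : Fin 2 → P := ![X, Y]
  let cP : Fin 2 → P := fun i => IP.cp (W i)
  let dP : Fin 2 → P := fun i => IP.dp (W i)
  have hc : ∀ i, φ (cP i) = cP i := fun i => IP.φ_cp (W i)
  have hd : ∀ i, φ (dP i) = (dP i)⁻¹ := fun i => IP.φ_dp (W i)
  have he0 : e0 ≤ e := by omega
  let D := DX e n φ hp h2 hφ hab e0 he0 hexp cP dP hc hd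
  let π : ↥(DD e n p cP dP) →* P := (MonoidHom.fst P _).comp (DD e n p cP dP).subtype
  have hinj : ∀ g, π g = 1 → D.f g = 1 → g = 1 := by
    intro g h1 h3
    apply Subtype.ext
    exact Prod.ext h1 h3
  have hnil : LC (⊤ : Subgroup ↥(DD e n p cP dP)) n = ⊥ := by
    rw [eq_bot_iff]
    intro g hg
    rw [Subgroup.mem_bot]
    apply hinj
    · have h1 : π g ∈ (LC (⊤ : Subgroup ↥(DD e n p cP dP)) n).map π := ⟨g, hg, rfl⟩
      rw [LC_map] at h1
      have h3 := LC_mono (le_top : (⊤ : Subgroup ↥(DD e n p cP dP)).map π ≤ ⊤) n h1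
      rw [hn, Subgroup.mem_bot] at h3
      exact h3
    · have h1 : D.f g ∈ Cg (tI ^ (n + 1)) := f_mem D.f D.hf (n := n + 1) hg
      rw [tI_pow, Cg_bot, Subgroup.mem_bot] at h1
      exact h1
  have hph : ∀ g, D.f (D.I.φ g) = ph (D.f g) := fun g => rfl
  have hcen := D.ker_central hp h2 π e0 hexp hnil he.ge hph hinj
  -- the elements
  set X' := D.c 0 * D.d 0 with hX'
  set Y' := D.c 1 * D.d 1 with hY'
  have hπX : π X' = X := IP.cp_mul_dp X
  have hπY : π Y' = Y := IP.cp_mul_dp Y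
  obtain ⟨r, hr⟩ := exists_half p e n hp h2
  have hpk := pink r hr tI (n + 1) tI_pow (D.f X') (D.f Y') (mem_Cg.mp (D.hf _))
    (mem_Cg.mp (D.hf _)) m S hS α (hrel _ _ _ (Th_trace r hr _) (Th_trace r hr _))
  have hcl : Subgroup.closure {D.f X', D.f Y'} = (Subgroup.closure {X', Y'}).map D.f := by
    rw [MonoidHom.map_closure, Set.image_pair]
  rw [hcl, ← LC_map, ← map_wd] at hpk
  obtain ⟨v, hv, hvf⟩ := hpk
  have hκ : D.f (v⁻¹ * wd X' Y' S α) = 1 := by rw [map_mul, map_inv, hvf, inv_mul_cancel]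
  have hκc := hcen _ hκ
  set κ := v⁻¹ * wd X' Y' S α with hκd
  have hwd : wd X' Y' S α = v * κ := by rw [hκd, mul_inv_cancel_left]
  have hcom : ⁅wd X' Y' S α, Y'⁆ = ⁅v, Y'⁆ := by
    rw [hwd, commutatorElement_def, commutatorElement_def, mul_inv_rev, mul_assoc v κ Y', hκc Y']
    group
  have hmem : ⁅wd X' Y' S α, Y'⁆ ∈ LC (Subgroup.closure {X', Y'}) (3 * m + 5) := by
    rw [hcom]
    exact Subgroup.commutator_mem_commutator hv (Subgroup.subset_closure (by simp))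
  have h5 : π ⁅wd X' Y' S α, Y'⁆ ∈ (LC (Subgroup.closure {X', Y'}) (3 * m + 5)).map π :=
    ⟨_, hmem, rfl⟩
  rw [LC_map, MonoidHom.map_closure, Set.image_pair, map_commutatorElement, map_wd, hπX, hπY] at h5
  exact h5

/-- the finite statement, from Pink's theorem -/
theorem finiteStatement (pink : PinkStatement) (p : ℕ) (hp : p.Prime) (h2 : 2 < p) :
    FiniteStatement p := by
  have : Fact p.Prime := ⟨hp⟩
  obtain ⟨m, S, α, l₀, hnd, hlen, hl₀, hα, hrel⟩ :=
    Pool.Agent.Helper51.Inv.exists_relation p hp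
  obtain ⟨Q, iQ, fQ, hQ, x, y, hnil, hne⟩ := Pool.Agent.Helper1.Inv.ut_word p hp l₀
  have hlm : l₀.length = m := hlen l₀ hl₀
  let θQ : FreeGroup (Fin 2) →* Q := FreeGroup.lift ![x, y]
  refine ⟨θQ.ker, inferInstance, ?_, ?_⟩
  · have h1 : θQ.ker.index = Nat.card θQ.range := Subgroup.index_ker θQ
    have h3 : IsPGroup p θQ.range := hQ.to_subgroup _
    obtain ⟨k, hk⟩ := (IsPGroup.iff_card).mp h3
    exact ⟨k, by rw [h1, hk]⟩
  · intro P _ _ hP φ hφ hab θ hker
    let a : FreeGroup (Fin 2) := FreeGroup.of 0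
    let b : FreeGroup (Fin 2) := FreeGroup.of 1
    have h1 := main_P pink hp h2 hP φ hφ hab (θ a) (θ b) m S hlen α hrel
    have h3 : ⁅wd a b S α, b⁆ ∈ (LC (Subgroup.closure {a, b}) (3 * m + 5)) ⊔ θ.ker := by
      rw [← Subgroup.comap_map_eq, Subgroup.mem_comap, LC_map, MonoidHom.map_closure, Set.image_pair,
        map_commutatorElement, map_wd]
      exact h1
    have h4 : (LC (Subgroup.closure {a, b}) (3 * m + 5)) ≤ θQ.ker := by
      intro g hg
      have h5 : θQ g ∈ (LC (Subgroup.closure {a, b}) (3 * m + 5)).map θQ := ⟨g, hg, rfl⟩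
      rw [LC_map] at h5
      have h6 := LC_mono (le_top : (Subgroup.closure {a, b}).map θQ ≤ ⊤) _ h5
      rw [← hlm, hnil, Subgroup.mem_bot] at h6
      exact h6
    have h7 : ⁅wd a b S α, b⁆ ∈ θQ.ker := (sup_le h4 hker) h3
    rw [MonoidHom.mem_ker, map_commutatorElement, map_wd] at h7
    have ha : θQ a = x := by simp [θQ, a]
    have hb : θQ b = y := by simp [θQ, b]
    rw [ha, hb] at h7
    exact hne S α hnd (fun l hl => (hlen l hl).trans hlm.symm) hl₀ hα h7

end Pool.Agent.Helper52.Inv
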