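import Mathlib
set_option autoImplicit false

namespace Pool.Agent.Helper52.Inv

/-- A Lie ring without 2-torsion, with an abelian even part `E` and an odd part `O`. -/
structure ZG (L : Type*) [LieRing L] where
  E : AddSubgroup L
  O : AddSubgroup L
  two : ∀ x : L, x + x = 0 → x = 0
  EE : ∀ a ∈ E, ∀ b ∈ E, ⁅a, b⁆ = 0
  EO : ∀ a ∈ E, ∀ u ∈ O, ⁅a, u⁆ ∈ O
  OO : ∀ u ∈ O, ∀ v ∈ O, ⁅u, v⁆ ∈ E

namespace ZG

variable {L : Type*} [LieRing L] (G : ZG L)

/-- action of the even part on the odd part -/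
def T (h : G.E) : AddMonoid.End G.O :=
  AddMonoidHom.mk' (fun u => ⟨⁅(h : L), (u : L)⁆, G.EO _ h.2 _ u.2⟩) (fun u v => by ext; simp)

/-- bracket of two odd elements -/
def D (u v : G.O) : G.E := ⟨⁅(u : L), (v : L)⁆, G.OO _ u.2 _ v.2⟩

@[simp] theorem T_coe (h : G.E) (u : G.O) : ((G.T h u : G.O) : L) = ⁅(h : L), (u : L)⁆ := rfl
@[simp] theorem D_coe (u v : G.O) : ((G.D u v : G.E) : L) = ⁅(u : L), (v : L)⁆ := rfl

theorem twoE (x : G.E) (h : x + x = 0) : x = 0 := by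
  ext; exact G.two _ (by have := congrArg (Subtype.val) h; simpa using this)

theorem twoO (x : G.O) (h : x + x = 0) : x = 0 := by
  ext; exact G.two _ (by have := congrArg (Subtype.val) h; simpa using this)

theorem T_add (h k : G.E) (u : G.O) : G.T (h + k) u = G.T h u + G.T k u := by ext; simp
theorem T_neg (h : G.E) (u : G.O) : G.T (-h) u = - G.T h u := by ext; simp
theorem T_sub (h k : G.E) (u : G.O) : G.T (h - k) u = G.T h u - G.T k u := by ext; simp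
theorem T_zero (u : G.O) : G.T 0 u = 0 := by ext; simp

theorem D_add_right (u v w : G.O) : G.D u (v + w) = G.D u v + G.D u w := by ext; simp
theorem D_add_left (u v w : G.O) : G.D (u + v) w = G.D u w + G.D v w := by ext; simp
theorem D_neg_right (u v : G.O) : G.D u (-v) = - G.D u v := by ext; simp
theorem D_neg_left (u v : G.O) : G.D (-u) v = - G.D u v := by ext; simp
theorem D_zero_right (u : G.O) : G.D u 0 = 0 := by ext; simp
theorem D_zero_left (u : G.O) : G.D 0 u = 0 := by ext; simp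
theorem D_sub_right (u v w : G.O) : G.D u (v - w) = G.D u v - G.D u w := by ext; simp
theorem D_self (u : G.O) : G.D u u = 0 := by ext; simp
theorem D_skew (u v : G.O) : G.D u v = - G.D v u := by ext; simp

theorem Tcomm (h h' : G.E) : G.T h * G.T h' = G.T h' * G.T h := by
  ext u
  change ⁅(h : L), ⁅(h' : L), (u : L)⁆⁆ = ⁅(h' : L), ⁅(h : L), (u : L)⁆⁆
  rw [leibniz_lie, G.EE _ h.2 _ h'.2, zero_lie, zero_add]

theorem Tc (h h' : G.E) (u : G.O) : G.T h (G.T h' u) = G.T h' (G.T h u) :=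
  DFunLike.congr_fun (G.Tcomm h h') u

theorem D_T_left (h : G.E) (u v : G.O) : G.D (G.T h u) v = - G.D u (G.T h v) := by
  ext
  have h1 := G.EE _ h.2 _ (G.OO _ u.2 _ v.2)
  rw [leibniz_lie] at h1
  simpa using eq_neg_of_add_eq_zero_left h1

theorem jac (u v w : G.O) : G.T (G.D u v) w + G.T (G.D v w) u + G.T (G.D w u) v = 0 := by
  ext
  simp only [AddSubgroup.coe_add, T_coe, D_coe, ZeroMemClass.coe_zero]
  have := lie_jacobi (u : L) v w
  rw [← lie_skew ⁅(u : L), (v : L)⁆ (w : L), ← lie_skew ⁅(v : L), (w : L)⁆ (u : L),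
    ← lie_skew ⁅(w : L), (u : L)⁆ (v : L)]
  have h2 : -⁅(w : L), ⁅(u : L), (v : L)⁆⁆ + -⁅(u : L), ⁅(v : L), (w : L)⁆⁆
    + -⁅(v : L), ⁅(w : L), (u : L)⁆⁆ =
    -(⁅(u : L), ⁅(v : L), (w : L)⁆⁆ + ⁅(v : L), ⁅(w : L), (u : L)⁆⁆ + ⁅(w : L), ⁅(u : L), (v : L)⁆⁆) := by
      abel
  rw [h2, this, neg_zero]

theorem symm (h : G.E) (u v : G.O) : G.D u (G.T h v) = G.D v (G.T h u) := by
  rw [G.D_skew v, G.D_T_left, neg_neg]

theorem J2 (h h' : G.E) (u v w : G.O) :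
    G.T (G.D u (G.T h v)) (G.T h' w) =
      G.T (G.D v (G.T h (G.T h' w))) u + G.T (G.D u (G.T h' w)) (G.T h v) := by
  have := G.jac u (G.T h v) (G.T h' w)
  rw [G.D_T_left, G.D_skew (G.T h' w) u] at this
  simp only [T_neg] at this
  rw [← sub_eq_zero, ← this]
  abel

theorem J1 (h : G.E) (u v w : G.O) :
    G.T (G.D u (G.T h v)) w = G.T (G.D v (G.T h w)) u + G.T h (G.T (G.D u w) v) := by
  have := G.jac u (G.T h v) w
  rw [G.D_T_left, G.D_skew w u] at this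
  simp only [T_neg] at this
  rw [G.Tc h, ← sub_eq_zero, ← this]
  abel

/-- `D(u,hv)h'w = D(u,h'v)hw` -/
theorem S2 (h h' : G.E) (u v w : G.O) :
    G.T (G.D u (G.T h v)) (G.T h' w) = G.T (G.D u (G.T h' v)) (G.T h w) := by
  -- X u v w
  set X : G.O → G.O → G.O → G.O := fun u v w =>
    G.T (G.D u (G.T h v)) (G.T h' w) - G.T (G.D u (G.T h' v)) (G.T h w) with hX
  have hsym : ∀ u v w, X u v w = X v u w := by
    intro u v w
    simp only [hX]
    rw [G.symm h u v, G.symm h' u v]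
  have hanti : ∀ u v w, X u v w = - X u w v := by
    intro u v w
    have e1 := G.J2 h h' u v w
    have e2 := G.J2 h' h u v w
    rw [G.Tc h' h] at e2
    simp only [hX]
    rw [e1, e2]
    abel
  have key : X u v w = - X u v w := by
    calc X u v w = - X u w v := hanti u v w
      _ = - X w u v := by rw [hsym u w v]
      _ = X w v u := by rw [hanti w u v, neg_neg]
      _ = X v w u := hsym w v u
      _ = - X v u w := hanti v w u
      _ = - X u v w := by rw [hsym v u w]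
  have h0 : X u v w = 0 := G.twoO _ (by nth_rewrite 1 [key]; abel)
  exact sub_eq_zero.mp h0

/-- `D(v,hh'w)u = hh'D(v,w)u` -/
theorem even_pair (h h' : G.E) (u v w : G.O) :
    G.T (G.D v (G.T h (G.T h' w))) u = G.T h (G.T h' (G.T (G.D v w) u)) := by
  have e1 := G.J2 h h' u v w
  have e2 := G.S2 h h' u w v
  have e3 := G.J1 h v u w
  -- e1 : D(u,hv)h'w = D(v,hh'w)u + D(u,h'w)hv
  -- e2 : D(u,hw)h'v = D(u,h'w)hv
  -- e3 : D(v,hu)w = D(u,hw)v + h D(v,w)u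
  rw [← e2] at e1
  rw [G.symm h v u] at e3
  have e4 : G.T h' (G.T (G.D u (G.T h v)) w) =
      G.T h' (G.T (G.D u (G.T h w)) v) + G.T h' (G.T h (G.T (G.D v w) u)) := by
    rw [e3, map_add]
  rw [G.Tc h' _ w, G.Tc h' _ v, e1] at e4
  have e5 := add_comm (G.T (G.D v (G.T h (G.T h' w))) u) (G.T (G.D u (G.T h w)) (G.T h' v))
  rw [e5] at e4
  rw [add_left_cancel e4, G.Tc h' h]

/-- `Q u v h = D(u,hv)` -/
def Q (u v : G.O) : AddMonoid.End G.E :=
  AddMonoidHom.mk' (fun h => G.D u (G.T h v)) (fun h k => by rw [T_add, D_add_right])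

theorem Q_apply (u v : G.O) (h : G.E) : G.Q u v h = G.D u (G.T h v) := rfl

theorem Q_symm (u v : G.O) : G.Q u v = G.Q v u := by
  ext h : 1; exact G.symm h u v

theorem R6 (h : G.E) (u v w x : G.O) :
    G.Q u x (G.Q v w h) = G.Q v u (G.Q w x h) - G.D u (G.T h (G.T (G.D x v) w)) := by
  simp only [Q_apply]
  have e := G.jac v (G.T h w) x
  rw [G.D_T_left] at e
  simp only [T_neg] at e
  have e1 : G.T (G.D v (G.T h w)) x = G.T (G.D w (G.T h x)) v - G.T (G.D x v) (G.T h w) := by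
    rw [← sub_eq_zero, ← e]; abel
  rw [e1, D_sub_right, G.symm _ u v, G.Tc _ h w]

theorem D_even_skew (h d : G.E) (u v : G.O) :
    G.D u (G.T h (G.T d v)) = - G.D v (G.T h (G.T d u)) := by
  have e1 : G.D u (G.T h (G.T d v)) = - G.D (G.T h u) (G.T d v) := by rw [D_T_left, neg_neg]
  have e2 : G.D (G.T d v) (G.T h u) = - G.D v (G.T d (G.T h u)) := by rw [D_T_left]
  rw [e1, G.D_skew (G.T h u), neg_neg, e2, G.Tc d h]

theorem D_even_self (h d : G.E) (u : G.O) : G.D u (G.T h (G.T d u)) = 0 := by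
  have := G.D_even_skew h d u u
  exact G.twoE _ (by nth_rewrite 1 [this]; abel)

section two
variable (a b : G.O)

theorem Q_comm1 : G.Q a b * G.Q a a = G.Q a a * G.Q a b := by
  ext h : 1
  change G.Q a b (G.Q a a h) = G.Q a a (G.Q a b h)
  rw [G.R6 h a a a b]
  have : G.D a (G.T h (G.T (G.D b a) a)) = 0 := G.D_even_self h (G.D b a) a
  rw [this, sub_zero]

theorem Q_comm2 : G.Q a a * G.Q b b = G.Q b b * G.Q a a := by
  ext h : 1
  change G.Q a a (G.Q b b h) = G.Q b b (G.Q a a h)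
  rw [G.R6 h a b b a, G.R6 h b a a b, G.Q_symm b a, G.D_skew b a, T_neg, map_neg, D_neg_right,
    sub_neg_eq_add, G.D_even_skew h _ b a]
  abel

end two

/-- operators of even length -/
def Ev (s : AddMonoid.End G.O) : Prop := ∀ v w : G.O, G.T (G.D v (s w)) = s * G.T (G.D v w)

theorem Ev_one : G.Ev 1 := fun v w => by simp

theorem Ev_mul {s t : AddMonoid.End G.O} (hs : G.Ev s) (ht : G.Ev t) : G.Ev (s * t) := by
  intro v w
  change G.T (G.D v (s (t w))) = _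
  rw [hs, ht, mul_assoc]

theorem Ev_TT (h h' : G.E) : G.Ev (G.T h * G.T h') := by
  intro v w
  ext u : 1
  exact G.even_pair h h' u v w

theorem Ev_pow2 (h : G.E) (k : ℕ) : G.Ev (G.T h ^ (2 * k)) := by
  induction k with
  | zero => simpa using G.Ev_one
  | succ k ih =>
    rw [Nat.mul_succ, pow_add, pow_two]
    exact G.Ev_mul ih (G.Ev_TT h h)

theorem TCommute (h h' : G.E) : Commute (G.T h) (G.T h') := G.Tcomm h h'

theorem Ev_even (x y : G.E) (m n : ℕ) (h : Even (m + n)) : G.Ev (G.T x ^ m * G.T y ^ n) := by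
  rcases Nat.even_or_odd m with hm | hm
  · have hn : Even n := (Nat.even_add.mp h).mp hm
    obtain ⟨k, rfl⟩ := hm
    obtain ⟨l, rfl⟩ := hn
    rw [← two_mul, ← two_mul]
    exact G.Ev_mul (G.Ev_pow2 x k) (G.Ev_pow2 y l)
  · have hn : Odd n := by
      rw [← Nat.not_even_iff_odd] at hm ⊢
      exact fun hn => hm ((Nat.even_add.mp h).mpr hn)
    obtain ⟨k, rfl⟩ := hm
    obtain ⟨l, rfl⟩ := hn
    have e : G.T x ^ (2 * k + 1) * G.T y ^ (2 * l + 1) =
        G.T x ^ (2 * k) * (G.T y ^ (2 * l) * (G.T x * G.T y)) := by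
      rw [pow_succ, pow_succ, mul_assoc, ← mul_assoc (G.T x), ((G.TCommute x y).pow_right _).eq]
      simp only [mul_assoc]
    rw [e]
    exact G.Ev_mul (G.Ev_pow2 x k) (G.Ev_mul (G.Ev_pow2 y l) (G.Ev_TT x y))

theorem Ev_odd (x y h : G.E) (m n : ℕ) (hmn : Odd (m + n)) :
    G.Ev (G.T x ^ m * G.T y ^ n * G.T h) := by
  rcases Nat.even_or_odd m with hm | hm
  · have hn : Odd n := by
      rw [← Nat.not_even_iff_odd] at hmn ⊢
      exact fun hn => hmn (Nat.even_add.mpr (iff_of_true hm hn))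
    obtain ⟨l, rfl⟩ := hn
    have e : G.T x ^ m * G.T y ^ (2 * l + 1) * G.T h =
        (G.T x ^ m * G.T y ^ (2 * l)) * (G.T y * G.T h) := by
      rw [pow_succ]; simp only [mul_assoc]
    rw [e]
    exact G.Ev_mul (G.Ev_even x y m (2 * l) (by simpa using hm.add (even_two_mul l))) (G.Ev_TT y h)
  · have hn : Even n := by
      by_contra hn
      rw [Nat.not_even_iff_odd] at hn
      rw [← Nat.not_even_iff_odd] at hmn
      exact hmn (hm.add_odd hn)
    obtain ⟨k, rfl⟩ := hm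
    have e : G.T x ^ (2 * k + 1) * G.T y ^ n * G.T h =
        (G.T x ^ (2 * k) * G.T y ^ n) * (G.T x * G.T h) := by
      rw [pow_succ, mul_assoc, mul_assoc, ← mul_assoc (G.T x), ((G.TCommute x y).pow_right _).eq]
      simp only [mul_assoc]
    rw [e]
    exact G.Ev_mul (G.Ev_even x y (2 * k) n ((even_two_mul k).add hn)) (G.Ev_TT x h)

/-- the relation `hΔ` -/
theorem S4 (h : G.E) (u w v : G.O) :
    G.T h (G.T (G.D u w) v) = G.T (G.Q u v h) w - G.T (G.Q v w h) u := by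
  have := G.J1 h u v w
  simp only [Q_apply]
  rw [this]; abel

/-- swapping property of an operator on the even part -/
def Sw (σ : AddMonoid.End G.E) : Prop :=
  ∀ (h h' : G.E) (w : G.O), G.T (σ h) (G.T h' w) = G.T (σ h') (G.T h w)

theorem Sw_one : G.Sw 1 := fun h h' w => G.Tc h h' w

theorem Sw_mul {σ : AddMonoid.End G.E} (hσ : G.Sw σ) (u v : G.O) (hc : Commute (G.Q u v) σ) :
    G.Sw (G.Q u v * σ) := by
  intro h h' w
  have hc' : ∀ x, G.Q u v (σ x) = σ (G.Q u v x) := fun x => DFunLike.congr_fun hc x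
  change G.T (G.Q u v (σ h)) (G.T h' w) = G.T (G.Q u v (σ h')) (G.T h w)
  have e1 : G.T (G.Q u v (σ h)) (G.T h' w) = G.T (G.Q u v h') (G.T (σ h) w) :=
    G.S2 (σ h) h' u v w
  rw [e1, G.Tc, hσ, ← hc']

theorem Sw_pow {σ : AddMonoid.End G.E} (hσ : G.Sw σ) (u v : G.O) (hc : Commute (G.Q u v) σ)
    (n : ℕ) : G.Sw (G.Q u v ^ n * σ) := by
  induction n with
  | zero => simpa using hσ
  | succ n ih =>
    rw [pow_succ', mul_assoc]
    exact G.Sw_mul ih u v ((Commute.refl (G.Q u v)).pow_right n |>.mul_right hc)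

section normal

variable (y : Fin 2 → G.E) (z : Fin 2 → G.O)

theorem Qc1 : Commute (G.Q (z 0) (z 0)) (G.Q (z 0) (z 1)) := (G.Q_comm1 (z 0) (z 1)).symm
theorem Qc2 : Commute (G.Q (z 0) (z 0)) (G.Q (z 1) (z 1)) := G.Q_comm2 (z 0) (z 1)
theorem Qc3 : Commute (G.Q (z 0) (z 1)) (G.Q (z 1) (z 1)) := by
  have := G.Q_comm1 (z 1) (z 0)
  rw [G.Q_symm (z 1) (z 0)] at this
  exact this

/-- the operator `Q00^a Q01^b Q11^c` -/
def qp (g : ℕ × ℕ × ℕ) : AddMonoid.End G.E :=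
  G.Q (z 0) (z 0) ^ g.1 * (G.Q (z 0) (z 1) ^ g.2.1 * G.Q (z 1) (z 1) ^ g.2.2)

theorem Sw_qp (g : ℕ × ℕ × ℕ) : G.Sw (G.qp z g) := by
  have h1 : G.Sw (G.Q (z 1) (z 1) ^ g.2.2) := by
    simpa using G.Sw_pow G.Sw_one (z 1) (z 1) (Commute.one_right _) g.2.2
  have h2 := G.Sw_pow h1 (z 0) (z 1) ((G.Qc3 z).pow_right _) g.2.1
  exact G.Sw_pow h2 (z 0) (z 0) (((G.Qc1 z).pow_right _).mul_right ((G.Qc2 z).pow_right _)) g.1

/-- index shift by a pair of indices -/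
def sh (g : ℕ × ℕ × ℕ) (i j : Fin 2) : ℕ × ℕ × ℕ :=
  if i = 0 then (if j = 0 then (g.1 + 1, g.2.1, g.2.2) else (g.1, g.2.1 + 1, g.2.2))
  else (if j = 0 then (g.1, g.2.1 + 1, g.2.2) else (g.1, g.2.1, g.2.2 + 1))

theorem Q_qp (g : ℕ × ℕ × ℕ) (i j : Fin 2) (h : G.E) :
    G.Q (z i) (z j) (G.qp z g h) = G.qp z (sh g i j) h := by
  have e00 : G.Q (z 0) (z 0) * G.qp z g = G.qp z (g.1 + 1, g.2.1, g.2.2) := by
    simp only [qp]; rw [← mul_assoc, ← pow_succ']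
  have e01 : G.Q (z 0) (z 1) * G.qp z g = G.qp z (g.1, g.2.1 + 1, g.2.2) := by
    simp only [qp]
    rw [← mul_assoc, (((G.Qc1 z).symm).pow_right _).eq, mul_assoc, ← mul_assoc (G.Q (z 0) (z 1)),
      ← pow_succ']
  have e11 : G.Q (z 1) (z 1) * G.qp z g = G.qp z (g.1, g.2.1, g.2.2 + 1) := by
    simp only [qp]
    rw [← mul_assoc, (((G.Qc2 z).symm).pow_right _).eq, mul_assoc, ← mul_assoc (G.Q (z 1) (z 1)),
      (((G.Qc3 z).symm).pow_right _).eq, mul_assoc, ← pow_succ']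
  have e10 : G.Q (z 1) (z 0) * G.qp z g = G.qp z (g.1, g.2.1 + 1, g.2.2) := by
    rw [G.Q_symm (z 1) (z 0), e01]
  fin_cases i <;> fin_cases j
  · exact DFunLike.congr_fun e00 h
  · exact DFunLike.congr_fun e01 h
  · exact DFunLike.congr_fun e10 h
  · exact DFunLike.congr_fun e11 h

theorem qp_zero (h : G.E) : G.qp z (0, 0, 0) h = h := by simp [qp]

/-- indices of the normal monomials of the odd part -/
inductive VI
  | n1 (i : Fin 2)
  | n2 (a b : ℕ) (g : ℕ × ℕ × ℕ) (i : Fin 2)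
  | n3 (b : ℕ) (g : ℕ × ℕ × ℕ) (i : Fin 2)
  | n4 (g : ℕ × ℕ × ℕ) (i : Fin 2)
  deriving DecidableEq

/-- the normal monomials of the odd part -/
def N : VI → G.O
  | VI.n1 i => z i
  | VI.n2 a b g i => (G.T (y 0) ^ a * G.T (y 1) ^ b) (G.T (G.qp z g (y 0)) (z i))
  | VI.n3 b g i => (G.T (y 1) ^ b) (G.T (G.qp z g (y 1)) (z i))
  | VI.n4 g i => G.T (G.qp z g (G.D (z 0) (z 1))) (z i)

/-- the span of the normal monomials -/
def VS : AddSubgroup G.O := AddSubgroup.closure (Set.range (G.N y z))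

theorem N_mem (v : VI) : G.N y z v ∈ G.VS y z := AddSubgroup.subset_closure ⟨v, rfl⟩

theorem VS_ind' {f : AddMonoid.End G.O} (hf : ∀ v, f (G.N y z v) ∈ G.VS y z) {x : G.O}
    (hx : x ∈ G.VS y z) : f x ∈ G.VS y z := by
  have hz : f 0 = 0 := map_zero f
  induction hx using AddSubgroup.closure_induction with
  | mem x hx => obtain ⟨v, rfl⟩ := hx; exact hf v
  | zero => rw [hz]; exact AddSubgroup.zero_mem _
  | add x y _ _ h1 h2 => rw [map_add]; exact AddSubgroup.add_mem _ h1 h2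
  | neg x _ h => rw [map_neg]; exact AddSubgroup.neg_mem _ h

theorem VS_ind {f : G.O →+ G.O} (hf : ∀ v, f (G.N y z v) ∈ G.VS y z) {x : G.O}
    (hx : x ∈ G.VS y z) : f x ∈ G.VS y z := by
  have : G.VS y z ≤ (G.VS y z).comap f := by
    rw [VS, AddSubgroup.closure_le]
    rintro _ ⟨v, rfl⟩
    exact hf v
  exact this hx

theorem hD_mem (h : G.E) (hh : ∀ g i, G.T (G.qp z g h) (z i) ∈ G.VS y z) (g : ℕ × ℕ × ℕ)
    (k i l : Fin 2) :
    G.T (G.qp z g h) (G.T (G.D (z k) (z i)) (z l)) ∈ G.VS y z := by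
  have key : ∀ l, G.T (G.qp z g h) (G.T (G.D (z 0) (z 1)) (z l)) ∈ G.VS y z := by
    intro l
    rw [G.S4, Q_qp, Q_qp]
    exact AddSubgroup.sub_mem _ (hh _ _) (hh _ _)
  fin_cases k <;> fin_cases i
  · change G.T (G.qp z g h) (G.T (G.D (z 0) (z 0)) (z l)) ∈ G.VS y z
    rw [D_self, T_zero, map_zero]; exact AddSubgroup.zero_mem _
  · exact key l
  · change G.T (G.qp z g h) (G.T (G.D (z 1) (z 0)) (z l)) ∈ G.VS y z
    rw [G.D_skew (z 1), T_neg, map_neg]; exact AddSubgroup.neg_mem _ (key l)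
  · change G.T (G.qp z g h) (G.T (G.D (z 1) (z 1)) (z l)) ∈ G.VS y z
    rw [D_self, T_zero, map_zero]; exact AddSubgroup.zero_mem _

theorem y0_mem (g : ℕ × ℕ × ℕ) (i : Fin 2) : G.T (G.qp z g (y 0)) (z i) ∈ G.VS y z := by
  simpa [N] using G.N_mem y z (VI.n2 0 0 g i)

theorem y1_mem (g : ℕ × ℕ × ℕ) (i : Fin 2) : G.T (G.qp z g (y 1)) (z i) ∈ G.VS y z := by
  simpa [N] using G.N_mem y z (VI.n3 0 g i)

theorem T0_mem {x : G.O} (hx : x ∈ G.VS y z) : G.T (y 0) x ∈ G.VS y z := by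
  refine G.VS_ind' y z (f := G.T (y 0)) ?_ hx
  rintro (i | ⟨a, b, g, i⟩ | ⟨b, g, i⟩ | ⟨g, i⟩)
  · simpa [N, qp_zero] using G.y0_mem y z (0, 0, 0) i
  · have : G.T (y 0) (G.N y z (VI.n2 a b g i)) = G.N y z (VI.n2 (a + 1) b g i) := by
      simp only [N, pow_succ', mul_assoc]; rfl
    rw [this]; exact G.N_mem y z _
  · have : G.T (y 0) (G.N y z (VI.n3 b g i)) = G.N y z (VI.n2 0 (b + 1) g i) := by
      simp only [N]
      have h1 : G.T (y 0) ((G.T (y 1) ^ b) (G.T (G.qp z g (y 1)) (z i))) =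
          (G.T (y 1) ^ b) (G.T (y 0) (G.T (G.qp z g (y 1)) (z i))) :=
        DFunLike.congr_fun ((G.TCommute (y 0) (y 1)).pow_right b).eq _
      rw [h1, G.Tc (y 0), G.Sw_qp z g, G.Tc _ (y 1), pow_zero, one_mul, pow_succ]; rfl
    rw [this]; exact G.N_mem y z _
  · simp only [N]
    rw [G.Tc (y 0), G.Sw_qp z g]
    exact G.hD_mem y z (y 0) (G.y0_mem y z) g 0 1 i

theorem T1_mem {x : G.O} (hx : x ∈ G.VS y z) : G.T (y 1) x ∈ G.VS y z := by
  refine G.VS_ind' y z (f := G.T (y 1)) ?_ hx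
  rintro (i | ⟨a, b, g, i⟩ | ⟨b, g, i⟩ | ⟨g, i⟩)
  · simpa [N, qp_zero] using G.y1_mem y z (0, 0, 0) i
  · have : G.T (y 1) (G.N y z (VI.n2 a b g i)) = G.N y z (VI.n2 a (b + 1) g i) := by
      simp only [N]
      have h1 : G.T (y 1) ((G.T (y 0) ^ a * G.T (y 1) ^ b) (G.T (G.qp z g (y 0)) (z i))) =
          (G.T (y 1) * (G.T (y 0) ^ a * G.T (y 1) ^ b)) (G.T (G.qp z g (y 0)) (z i)) := rfl
      rw [h1, ← mul_assoc, ((G.TCommute (y 1) (y 0)).pow_right a).eq, mul_assoc, ← pow_succ']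
    rw [this]; exact G.N_mem y z _
  · have : G.T (y 1) (G.N y z (VI.n3 b g i)) = G.N y z (VI.n3 (b + 1) g i) := by
      simp only [N, pow_succ']; rfl
    rw [this]; exact G.N_mem y z _
  · simp only [N]
    rw [G.Tc (y 1), G.Sw_qp z g]
    exact G.hD_mem y z (y 1) (G.y1_mem y z) g 0 1 i

theorem T0pow_mem (a : ℕ) {x : G.O} (hx : x ∈ G.VS y z) : (G.T (y 0) ^ a) x ∈ G.VS y z := by
  induction a with
  | zero => simpa using hx
  | succ a ih => rw [pow_succ']; exact G.T0_mem y z ih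

theorem T1pow_mem (a : ℕ) {x : G.O} (hx : x ∈ G.VS y z) : (G.T (y 1) ^ a) x ∈ G.VS y z := by
  induction a with
  | zero => simpa using hx
  | succ a ih => rw [pow_succ']; exact G.T1_mem y z ih

/-- general case of `T (D z_k (s z_i)) z_l` for `s = y0^a y1^b h` -/
theorem gen_mem (h : G.E) (hh : ∀ g i, G.T (G.qp z g h) (z i) ∈ G.VS y z) (g : ℕ × ℕ × ℕ)
    (a b : ℕ) (k i l : Fin 2) :
    G.T (G.D (z k) ((G.T (y 0) ^ a * G.T (y 1) ^ b) (G.T (G.qp z g h) (z i)))) (z l)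
      ∈ G.VS y z := by
  rcases Nat.even_or_odd (a + b) with hab | hab
  · have := G.Ev_even (y 0) (y 1) a b hab (z k) (G.T (G.qp z g h) (z i))
    have e := DFunLike.congr_fun this (z l)
    rw [e]
    change (G.T (y 0) ^ a) ((G.T (y 1) ^ b) (G.T (G.Q (z k) (z i) (G.qp z g h)) (z l))) ∈ _
    rw [Q_qp]
    exact G.T0pow_mem y z a (G.T1pow_mem y z b (hh _ _))
  · have := G.Ev_odd (y 0) (y 1) (G.qp z g h) a b hab (z k) (z i)
    have e := DFunLike.congr_fun this (z l)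
    change G.T (G.D (z k) ((G.T (y 0) ^ a * G.T (y 1) ^ b * G.T (G.qp z g h)) (z i))) (z l) ∈ _
    rw [e]
    change (G.T (y 0) ^ a) ((G.T (y 1) ^ b) (G.T (G.qp z g h) (G.T (G.D (z k) (z i)) (z l)))) ∈ _
    exact G.T0pow_mem y z a (G.T1pow_mem y z b (G.hD_mem y z h hh g k i l))

theorem TD_mem (k l : Fin 2) {v : G.O} (hv : v ∈ G.VS y z) : G.T (G.D (z k) v) (z l) ∈ G.VS y z := by
  let f : G.O →+ G.O := AddMonoidHom.mk' (fun v => G.T (G.D (z k) v) (z l))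
    (fun u v => by rw [D_add_right, T_add])
  refine G.VS_ind y z (f := f) ?_ hv
  rintro (i | ⟨a, b, g, i⟩ | ⟨b, g, i⟩ | ⟨g, i⟩)
  · change G.T (G.D (z k) (z i)) (z l) ∈ _
    have key : G.T (G.D (z 0) (z 1)) (z l) ∈ G.VS y z := by
      simpa [N, qp_zero] using G.N_mem y z (VI.n4 (0, 0, 0) l)
    fin_cases k <;> fin_cases i
    · change G.T (G.D (z 0) (z 0)) (z l) ∈ G.VS y z
      rw [D_self, T_zero]; exact AddSubgroup.zero_mem _
    · exact key
    · change G.T (G.D (z 1) (z 0)) (z l) ∈ G.VS y z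
      rw [G.D_skew (z 1), T_neg]; exact AddSubgroup.neg_mem _ key
    · change G.T (G.D (z 1) (z 1)) (z l) ∈ G.VS y z
      rw [D_self, T_zero]; exact AddSubgroup.zero_mem _
  · exact G.gen_mem y z (y 0) (G.y0_mem y z) g a b k i l
  · have := G.gen_mem y z (y 1) (G.y1_mem y z) g 0 b k i l
    rw [pow_zero, one_mul] at this
    exact this
  · change G.T (G.Q (z k) (z i) (G.qp z g (G.D (z 0) (z 1)))) (z l) ∈ _
    rw [Q_qp]
    exact G.N_mem y z (VI.n4 _ l)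

/-- the span of the even monomials -/
def OS : AddSubgroup G.E :=
  AddSubgroup.closure (Set.range y ∪ {e | ∃ k, ∃ v ∈ G.VS y z, G.D (z k) v = e})

theorem T_OS_mem (l : Fin 2) {e : G.E} (he : e ∈ G.OS y z) : G.T e (z l) ∈ G.VS y z := by
  let f : G.E →+ G.O := AddMonoidHom.mk' (fun e => G.T e (z l)) (fun u v => by rw [T_add])
  have : G.OS y z ≤ (G.VS y z).comap f := by
    rw [OS, AddSubgroup.closure_le]
    rintro e (⟨i, rfl⟩ | ⟨k, v, hv, rfl⟩)
    · change G.T (y i) (z l) ∈ G.VS y z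
      fin_cases i
      · simpa [qp_zero] using G.y0_mem y z (0, 0, 0) l
      · simpa [qp_zero] using G.y1_mem y z (0, 0, 0) l
    · exact G.TD_mem y z k l hv
  exact this he

/-- the total span, inside `L` -/
def MS : AddSubgroup L := (G.VS y z).map G.O.subtype ⊔ (G.OS y z).map G.E.subtype

theorem y_mem_MS (i : Fin 2) : (y i : L) ∈ G.MS y z :=
  AddSubgroup.mem_sup_right ⟨y i, AddSubgroup.subset_closure (Or.inl ⟨i, rfl⟩), rfl⟩

theorem z_mem_MS (i : Fin 2) : (z i : L) ∈ G.MS y z :=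
  AddSubgroup.mem_sup_left ⟨z i, G.N_mem y z (VI.n1 i), rfl⟩

theorem ad_y_MS (i : Fin 2) {x : L} (hx : x ∈ G.MS y z) : ⁅(y i : L), x⁆ ∈ G.MS y z := by
  rw [MS, AddSubgroup.mem_sup] at hx
  obtain ⟨_, ⟨v, hv, rfl⟩, _, ⟨e, he, rfl⟩, rfl⟩ := hx
  rw [lie_add]
  refine AddSubgroup.add_mem _ ?_ ?_
  · refine AddSubgroup.mem_sup_left ⟨G.T (y i) v, ?_, rfl⟩
    fin_cases i
    · exact G.T0_mem y z hv
    · exact G.T1_mem y z hv
  · change ⁅(y i : L), (e : L)⁆ ∈ _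
    rw [G.EE _ (y i).2 _ e.2]; exact AddSubgroup.zero_mem _

theorem ad_z_MS (i : Fin 2) {x : L} (hx : x ∈ G.MS y z) : ⁅(z i : L), x⁆ ∈ G.MS y z := by
  rw [MS, AddSubgroup.mem_sup] at hx
  obtain ⟨_, ⟨v, hv, rfl⟩, _, ⟨e, he, rfl⟩, rfl⟩ := hx
  rw [lie_add]
  refine AddSubgroup.add_mem _ ?_ ?_
  · exact AddSubgroup.mem_sup_right
      ⟨G.D (z i) v, AddSubgroup.subset_closure (Or.inr ⟨i, v, hv, rfl⟩), rfl⟩
  · change ⁅(z i : L), (e : L)⁆ ∈ _
    rw [← lie_skew]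
    exact AddSubgroup.neg_mem _ (AddSubgroup.mem_sup_left ⟨G.T e (z i), G.T_OS_mem y z i he, rfl⟩)

theorem odd_mem (hEO : ∀ x ∈ G.E, x ∈ G.O → x = 0) (x : G.O) (hx : (x : L) ∈ G.MS y z) :
    x ∈ G.VS y z := by
  rw [MS, AddSubgroup.mem_sup] at hx
  obtain ⟨_, ⟨v, hv, rfl⟩, _, ⟨e, he, rfl⟩, h⟩ := hx
  change (v : L) + (e : L) = x at h
  have he0 : (e : L) = 0 := hEO _ e.2 (by
    have : (e : L) = (x : L) - (v : L) := by rw [← h]; abel
    rw [this]; exact G.O.sub_mem x.2 v.2)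
  rw [he0, add_zero] at h
  have : v = x := by ext; exact h
  rwa [← this]

end normal

end ZG
end Pool.Agent.Helper52.Inv
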