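import Pool.Agent.Helper52.Inv.LcN
import Pool.Agent.Helper52.Inv.Span
set_option autoImplicit false
open scoped commutatorElement

namespace Pool.Agent.Helper52.Inv

namespace NSer

variable {G : Type*} [Group G] (S : NSer G) {M : Type*} [AddCommGroup M]

theorem theta_congr {n : ℕ} (θ : G → M) (hadd : ∀ g ∈ S.Γ n, ∀ h ∈ S.Γ n, θ (g * h) = θ g + θ h)
    (hz : ∀ g ∈ S.Γ (n + 1), θ g = 0) {g h : G} (hg : g ∈ S.Γ n) (hh : h ∈ S.Γ n)
    (e : S.cl n g = S.cl n h) : θ g = θ h := by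
  rw [S.cl_eq_iff hg hh] at e
  have := hadd g hg (g⁻¹ * h) (S.anti n e)
  rw [mul_inv_cancel_left, hz _ e, add_zero] at this
  exact this.symm

/-- additive maps out of a graded piece -/
noncomputable def grLift (n : ℕ) (θ : G → M)
    (hadd : ∀ g ∈ S.Γ n, ∀ h ∈ S.Γ n, θ (g * h) = θ g + θ h)
    (hz : ∀ g ∈ S.Γ (n + 1), θ g = 0) : S.gr n →+ M :=
  AddMonoidHom.mk' (fun a => θ (S.exists_cl a).choose) (by
    intro a b
    have ha := (S.exists_cl a).choose_spec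
    have hb := (S.exists_cl b).choose_spec
    have hab := (S.exists_cl (a + b)).choose_spec
    rw [← hadd _ ha.1 _ hb.1]
    apply S.theta_congr θ hadd hz hab.1 ((S.Γ n).mul_mem ha.1 hb.1)
    rw [hab.2, S.cl_mul ha.1 hb.1, ha.2, hb.2])

theorem grLift_cl (n : ℕ) (θ : G → M)
    (hadd : ∀ g ∈ S.Γ n, ∀ h ∈ S.Γ n, θ (g * h) = θ g + θ h)
    (hz : ∀ g ∈ S.Γ (n + 1), θ g = 0) {g : G} (hg : g ∈ S.Γ n) :
    S.grLift n θ hadd hz (S.cl n g) = θ g := by
  have h := (S.exists_cl (S.cl n g)).choose_spec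
  exact S.theta_congr θ hadd hz h.1 hg h.2

/-- additive maps out of the total object -/
noncomputable def totLift (θ : ℕ → G → M)
    (hadd : ∀ n, ∀ g ∈ S.Γ n, ∀ h ∈ S.Γ n, θ n (g * h) = θ n g + θ n h)
    (hz : ∀ n, ∀ g ∈ S.Γ (n + 1), θ n g = 0) : S.Tot →+ M :=
  DirectSum.toAddMonoid (fun n => S.grLift n (θ n) (hadd n) (hz n))

theorem totLift_hm (θ : ℕ → G → M)
    (hadd : ∀ n, ∀ g ∈ S.Γ n, ∀ h ∈ S.Γ n, θ n (g * h) = θ n g + θ n h)
    (hz : ∀ n, ∀ g ∈ S.Γ (n + 1), θ n g = 0) {n : ℕ} {g : G} (hg : g ∈ S.Γ n) :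
    S.totLift θ hadd hz (S.hm n g) = θ n g := by
  have : S.totLift θ hadd hz (S.inc n (S.cl n g)) = S.grLift n (θ n) (hadd n) (hz n) (S.cl n g) :=
    DirectSum.toAddMonoid_of _ n _
  rw [hm, this, S.grLift_cl _ _ _ _ hg]

end NSer

/-- a group of odd exponent `N` with an involutory automorphism with abelian fixed points -/
structure Inl (G : Type*) [Group G] where
  φ : G →* G
  inv : ∀ x, φ (φ x) = x
  r : ℕ
  exp : ∀ x : G, x ^ (2 * r + 1) = 1
  ab : ∀ a b, φ a = a → φ b = b → a * b = b * a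

namespace Inl
variable {G : Type*} [Group G] (I : Inl G)

/-- the inverted part -/
def dp (g : G) : G := ((I.φ g)⁻¹ * g) ^ (I.r + 1)
/-- the fixed part -/
def cp (g : G) : G := g * (I.dp g)⁻¹

theorem φh (g : G) : I.φ ((I.φ g)⁻¹ * g) = ((I.φ g)⁻¹ * g)⁻¹ := by
  rw [map_mul, map_inv, I.inv, mul_inv_rev, inv_inv]

theorem φ_dp (g : G) : I.φ (I.dp g) = (I.dp g)⁻¹ := by
  rw [dp, map_pow, I.φh, inv_pow]

theorem dp_sq (g : G) : I.dp g * I.dp g = (I.φ g)⁻¹ * g := by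
  rw [dp, ← pow_add, show I.r + 1 + (I.r + 1) = (2 * I.r + 1) + 1 by ring, pow_succ, I.exp, one_mul]

theorem φ_cp (g : G) : I.φ (I.cp g) = I.cp g := by
  have h := I.dp_sq g
  rw [cp, map_mul, map_inv, I.φ_dp, inv_inv]
  have h2 : g = I.φ g * (I.dp g * I.dp g) := by rw [h, mul_inv_cancel_left]
  nth_rewrite 3 [h2]
  group

theorem cp_mul_dp (g : G) : I.cp g * I.dp g = g := by rw [cp, inv_mul_cancel_right]

include I in
theorem eq_pow_sq (g : G) : g = (g * g) ^ (I.r + 1) := by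
  rw [← pow_two, ← pow_mul, show 2 * (I.r + 1) = (2 * I.r + 1) + 1 by ring, pow_succ, I.exp, one_mul]

include I in
theorem sq_mem (H : Subgroup G) {g : G} (h : g * g ∈ H) : g ∈ H := by
  rw [I.eq_pow_sq g]; exact H.pow_mem h _

theorem φ_surj : Function.Surjective I.φ := fun x => ⟨I.φ x, I.inv x⟩

theorem φ_LC (n : ℕ) {g : G} (hg : g ∈ LC (⊤ : Subgroup G) n) : I.φ g ∈ LC (⊤ : Subgroup G) n := by
  have h := LC_map I.φ ⊤ n
  rw [Subgroup.map_top_of_surjective _ I.φ_surj] at h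
  rw [← h]
  exact ⟨g, hg, rfl⟩

theorem φ_mem (n : ℕ) {g : G} (hg : g ∈ (lcN G).Γ n) : I.φ g ∈ (lcN G).Γ n := I.φ_LC _ hg

theorem h_mem (n : ℕ) {g : G} (hg : g ∈ (lcN G).Γ n) : (I.φ g)⁻¹ * g ∈ (lcN G).Γ n :=
  ((lcN G).Γ n).mul_mem (((lcN G).Γ n).inv_mem (I.φ_mem n hg)) hg

theorem dp_mem (n : ℕ) {g : G} (hg : g ∈ (lcN G).Γ n) : I.dp g ∈ (lcN G).Γ n :=
  ((lcN G).Γ n).pow_mem (I.h_mem n hg) _

theorem cp_mem (n : ℕ) {g : G} (hg : g ∈ (lcN G).Γ n) : I.cp g ∈ (lcN G).Γ n :=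
  ((lcN G).Γ n).mul_mem hg (((lcN G).Γ n).inv_mem (I.dp_mem n hg))

/-- the action of `φ` on the total graded object -/
noncomputable def st : (lcN G).Tot →+ (lcN G).Tot :=
  (lcN G).totLift (fun n g => (lcN G).hm n (I.φ g))
    (fun n g hg h hh => by rw [map_mul, (lcN G).hm_mul (I.φ_mem n hg) (I.φ_mem n hh)])
    (fun n g hg => (lcN G).hm_succ (I.φ_mem (n + 1) hg))

theorem st_hm {n : ℕ} {g : G} (hg : g ∈ (lcN G).Γ n) :
    I.st ((lcN G).hm n g) = (lcN G).hm n (I.φ g) := (lcN G).totLift_hm _ _ _ hg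

theorem st_st (x : (lcN G).Tot) : I.st (I.st x) = x := by
  refine (lcN G).Tot_ind (p := fun x => I.st (I.st x) = x) (by simp) ?_ ?_ x
  · intro n g hg
    rw [I.st_hm hg, I.st_hm (I.φ_mem n hg), I.inv]
  · intro a b ha hb
    rw [map_add, map_add, ha, hb]

theorem st_lie (x y : (lcN G).Tot) : I.st ⁅x, y⁆ = ⁅I.st x, I.st y⁆ := by
  refine (lcN G).Tot_ind (p := fun x => I.st ⁅x, y⁆ = ⁅I.st x, I.st y⁆) (by simp) ?_ ?_ x
  · intro n g hg
    refine (lcN G).Tot_ind (p := fun y => I.st ⁅(lcN G).hm n g, y⁆ = ⁅I.st ((lcN G).hm n g), I.st y⁆)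
      (by simp) ?_ ?_ y
    · intro m h hh
      rw [(lcN G).lie_hm hg hh, I.st_hm ((lcN G).comm _ _ _ hg _ hh), I.st_hm hg, I.st_hm hh,
        (lcN G).lie_hm (I.φ_mem n hg) (I.φ_mem m hh), map_commutatorElement]
    · intro a b ha hb
      rw [lie_add, map_add, map_add, lie_add, ha, hb]
  · intro a b ha hb
    rw [add_lie, map_add, map_add, add_lie, ha, hb]

include I in
theorem tot_exp (x : (lcN G).Tot) : (2 * I.r + 1) • x = 0 := by
  refine (lcN G).Tot_ind (p := fun x => (2 * I.r + 1) • x = 0) (by simp) ?_ ?_ x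
  · intro n g hg
    rw [NSer.hm, ← map_nsmul, ← (lcN G).cl_pow hg, I.exp, (lcN G).cl_one, map_zero]
  · intro a b ha hb
    rw [smul_add, ha, hb, add_zero]

include I in
theorem tot_two (x : (lcN G).Tot) (h : x + x = 0) : x = 0 := by
  have h1 := I.tot_exp x
  rw [add_smul, mul_comm, mul_smul, two_smul, h, smul_zero, zero_add, one_smul] at h1
  exact h1

/-- subgroup generated by classes of fixed elements -/
noncomputable def CE : AddSubgroup (lcN G).Tot :=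
  AddSubgroup.closure {x | ∃ n, ∃ c ∈ (lcN G).Γ n, I.φ c = c ∧ (lcN G).hm n c = x}

theorem add_st_mem (x : (lcN G).Tot) : x + I.st x ∈ I.CE := by
  refine (lcN G).Tot_ind (p := fun x => x + I.st x ∈ I.CE) ?_ ?_ ?_ x
  · simp only [map_zero, add_zero]; exact I.CE.zero_mem
  · intro n g hg
    rw [I.st_hm hg]
    have hc : (lcN G).hm n (I.cp g) ∈ I.CE :=
      AddSubgroup.subset_closure ⟨n, I.cp g, I.cp_mem n hg, I.φ_cp g, rfl⟩
    have e1 : (lcN G).hm n g = (lcN G).hm n (I.cp g) + (lcN G).hm n (I.dp g) := by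
      rw [← (lcN G).hm_mul (I.cp_mem n hg) (I.dp_mem n hg), I.cp_mul_dp]
    have e2 : (lcN G).hm n (I.φ g) = (lcN G).hm n (I.cp g) - (lcN G).hm n (I.dp g) := by
      have : I.φ g = I.cp g * (I.dp g)⁻¹ := by
        conv_lhs => rw [← I.cp_mul_dp g]
        rw [map_mul, I.φ_cp, I.φ_dp]
      rw [this, (lcN G).hm_mul (I.cp_mem n hg) (((lcN G).Γ n).inv_mem (I.dp_mem n hg)),
        (lcN G).hm_inv (I.dp_mem n hg), sub_eq_add_neg]
    rw [e1, e2, add_add_sub_cancel]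
    exact I.CE.add_mem hc hc
  · intro a b ha hb
    rw [map_add, add_add_add_comm]
    exact I.CE.add_mem ha hb

theorem CE_lie {x y : (lcN G).Tot} (hx : x ∈ I.CE) (hy : y ∈ I.CE) : ⁅x, y⁆ = 0 := by
  induction hx using AddSubgroup.closure_induction with
  | mem x hx =>
    obtain ⟨n, c, hc, hcc, rfl⟩ := hx
    induction hy using AddSubgroup.closure_induction with
    | mem y hy =>
      obtain ⟨m, d, hd, hdd, rfl⟩ := hy
      rw [(lcN G).lie_hm hc hd, commutatorElement_eq_one_iff_mul_comm.mpr (I.ab c d hcc hdd),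
        (lcN G).hm_one]
    | zero => simp
    | add a b _ _ h1 h2 => rw [lie_add, h1, h2, add_zero]
    | neg a _ h => rw [lie_neg, h, neg_zero]
  | zero => simp
  | add a b _ _ h1 h2 => rw [add_lie, h1, h2, add_zero]
  | neg a _ h => rw [neg_lie, h, neg_zero]

/-- the structure of `ZG` on the total Lie ring -/
noncomputable def zg : ZG (lcN G).Tot where
  E := (I.st - AddMonoidHom.id _).ker
  O := (I.st + AddMonoidHom.id _).ker
  two := I.tot_two
  EE := by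
    intro a ha b hb
    rw [AddMonoidHom.mem_ker, AddMonoidHom.sub_apply, AddMonoidHom.id_apply, sub_eq_zero] at ha hb
    have h1 := I.add_st_mem a
    have h2 := I.add_st_mem b
    rw [ha] at h1
    rw [hb] at h2
    have h3 := I.CE_lie h1 h2
    rw [add_lie, lie_add] at h3
    exact I.tot_two _ (I.tot_two _ h3)
  EO := by
    intro a ha u hu
    rw [AddMonoidHom.mem_ker, AddMonoidHom.sub_apply, AddMonoidHom.id_apply, sub_eq_zero] at ha
    rw [AddMonoidHom.mem_ker, AddMonoidHom.add_apply, AddMonoidHom.id_apply] at hu ⊢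
    have hu' : I.st u = -u := eq_neg_of_add_eq_zero_left hu
    rw [I.st_lie, ha, hu', lie_neg, neg_add_cancel]
  OO := by
    intro u hu v hv
    rw [AddMonoidHom.mem_ker, AddMonoidHom.add_apply, AddMonoidHom.id_apply] at hu hv
    have hu' : I.st u = -u := eq_neg_of_add_eq_zero_left hu
    have hv' : I.st v = -v := eq_neg_of_add_eq_zero_left hv
    rw [AddMonoidHom.mem_ker, AddMonoidHom.sub_apply, AddMonoidHom.id_apply, I.st_lie, hu', hv',
      lie_neg, neg_lie, neg_neg, sub_self]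

theorem mem_E {x : (lcN G).Tot} : x ∈ I.zg.E ↔ I.st x = x := by
  change x ∈ (I.st - AddMonoidHom.id _).ker ↔ _
  rw [AddMonoidHom.mem_ker, AddMonoidHom.sub_apply, AddMonoidHom.id_apply, sub_eq_zero]

theorem mem_O {x : (lcN G).Tot} : x ∈ I.zg.O ↔ I.st x = -x := by
  change x ∈ (I.st + AddMonoidHom.id _).ker ↔ _
  rw [AddMonoidHom.mem_ker, AddMonoidHom.add_apply, AddMonoidHom.id_apply, eq_neg_iff_add_eq_zero]

theorem E_inf_O {x : (lcN G).Tot} (h1 : x ∈ I.zg.E) (h2 : x ∈ I.zg.O) : x = 0 := by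
  rw [I.mem_E] at h1
  rw [I.mem_O, h1] at h2
  exact I.tot_two _ (by nth_rewrite 1 [h2]; exact neg_add_cancel x)

theorem hm_mem_E {n : ℕ} {c : G} (hc : c ∈ (lcN G).Γ n) (h : I.φ c = c) :
    (lcN G).hm n c ∈ I.zg.E := by rw [I.mem_E, I.st_hm hc, h]

theorem hm_mem_O {n : ℕ} {d : G} (hd : d ∈ (lcN G).Γ n) (h : I.φ d = d⁻¹) :
    (lcN G).hm n d ∈ I.zg.O := by rw [I.mem_O, I.st_hm hd, h, (lcN G).hm_inv hd]

end Inl

end Pool.Agent.Helper52.Inv
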