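import Pool.Agent.Helper52.Inv.Span

set_option autoImplicit false

/-!
# The polynomials attached to the normal monomials

`Bz = ℤ[y0,y1,β,κ][ρ]`, with `β = X 2`, `κ = X 3`, `ρ` the variable of `Polynomial`.
-/

namespace Pool.Agent.Helper52.Inv

open ZG

/-- the coefficient ring over `k` -/
abbrev BR (k : Type*) [CommRing k] := Polynomial (MvPolynomial (Fin 4) k)

section
variable (k : Type*) [CommRing k]

noncomputable def vy0 : BR k := Polynomial.C (MvPolynomial.X 0)
noncomputable def vy1 : BR k := Polynomial.C (MvPolynomial.X 1)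
noncomputable def vb : BR k := Polynomial.C (MvPolynomial.X 2)
noncomputable def vk : BR k := Polynomial.C (MvPolynomial.X 3)
noncomputable def vr : BR k := Polynomial.X
/-- `q = ρκ - ρ²β` -/
noncomputable def vq : BR k := vr k * vk k - vr k ^ 2 * vb k

/-- the product of the three quadratic factors -/
noncomputable def Pg (g : ℕ × ℕ × ℕ) : BR k :=
  (-16 * vb k) ^ g.1 * (-8 * vk k) ^ g.2.1 * (-16 * vq k) ^ g.2.2

/-- the polynomial of a normal monomial -/
noncomputable def al : VI → BR k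
  | VI.n1 i => 2 * vr k ^ (i : ℕ)
  | VI.n2 a b g i => (2 * vy0 k) ^ a * (2 * vy1 k) ^ b * (2 * (Pg k g * vy0 k)) * (2 * vr k ^ (i : ℕ))
  | VI.n3 b g i => (2 * vy1 k) ^ b * (2 * (Pg k g * vy1 k)) * (2 * vr k ^ (i : ℕ))
  | VI.n4 g i => 2 * (Pg k g * (4 * (vk k - 2 * vr k * vb k))) * (2 * vr k ^ (i : ℕ))

end

end Pool.Agent.Helper52.Inv
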